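import Pool.Agent.Q4.Lip.Phi

/-!
# The system of differential equations for the matrix coefficients
-/

open Filter Topology

namespace Q4.Sub

open Q4.Lip (cosh_two sinh_two tendsto_sinh_div tendsto_div_sinh_two)

/-- The system satisfied by the matrix coefficients. -/
structure Sys (κ n : ℕ) (c₀ : ℂ) (φ : ℕ → ℝ → ℂ) : Prop where
  der : ∀ m t, HasDerivAt (φ m) (((m : ℂ) + 2 * κ) * φ (m + 1) t - (m : ℂ) * φ (m - 1) t) t
  rel : ∀ m t, 2 * ((n : ℂ) + κ) * φ m t = 2 * (Real.cosh (2 * t) : ℂ) * ((m : ℂ) + κ) * φ m t +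
    (Real.sinh (2 * t) : ℂ) * (((m : ℂ) + 2 * κ) * φ (m + 1) t + (m : ℂ) * φ (m - 1) t)
  ini : φ n 0 = c₀

variable {κ n : ℕ} {c₀ : ℂ} {φ : ℕ → ℝ → ℂ}

theorem mul_pow_pred (n : ℕ) (x : ℂ) : (n : ℂ) * x ^ (n - 1) * x = n * x ^ n := by
  rcases n with _ | n
  · simp
  · rw [Nat.add_sub_cancel, pow_succ]
    ring

theorem Sys.key (h : Sys κ n c₀ φ) (t : ℝ) :
    2 * (Real.sinh t : ℂ) * Real.cosh t * κ * φ 1 t =
      (((n : ℂ) + κ) - κ * ((Real.cosh t : ℂ) ^ 2 + (Real.sinh t : ℂ) ^ 2)) * φ 0 t := by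
  have h1 := h.rel 0 t
  rw [cosh_two, sinh_two] at h1
  simp only [Complex.ofReal_add, Complex.ofReal_pow, Complex.ofReal_mul, Complex.ofReal_ofNat,
    Nat.cast_zero, zero_add, zero_mul, add_zero] at h1
  linear_combination (-1 / 2 : ℂ) * h1

theorem Sys.const (h : Sys κ n c₀ φ) : ∃ c : ℂ, ∀ t : ℝ, 0 < t →
    φ 0 t * (Real.cosh t : ℂ) ^ (n + 2 * κ) = c * (Real.sinh t : ℂ) ^ n := by
  set W : ℝ → ℂ := fun t => φ 0 t * (Real.cosh t : ℂ) ^ (n + 2 * κ) with hW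
  set Q : ℝ → ℂ := fun t => W t / (Real.sinh t : ℂ) ^ n with hQ
  have hch : ∀ t : ℝ, HasDerivAt (fun t : ℝ => (Real.cosh t : ℂ)) (Real.sinh t : ℂ) t := fun t =>
    (Real.hasDerivAt_cosh t).ofReal_comp
  have hsh : ∀ t : ℝ, HasDerivAt (fun t : ℝ => (Real.sinh t : ℂ)) (Real.cosh t : ℂ) t := fun t =>
    (Real.hasDerivAt_sinh t).ofReal_comp
  have hder : ∀ t : ℝ, 0 < t → HasDerivAt Q 0 t := by
    intro t ht
    have hs : (Real.sinh t : ℂ) ≠ 0 := by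
      have : Real.sinh t ≠ 0 := (Real.sinh_pos_iff.2 ht).ne'
      exact_mod_cast this
    have hcc : (Real.cosh t : ℂ) ≠ 0 := by exact_mod_cast (Real.cosh_pos t).ne'
    have h1 := ((h.der 0 t).fun_mul ((hch t).fun_pow (n + 2 * κ))).fun_div ((hsh t).fun_pow n)
      (pow_ne_zero n hs)
    refine h1.congr_deriv ?_
    have hk := h.key t
    rw [div_eq_zero_iff]
    left
    simp only [Nat.cast_zero, zero_add, zero_mul, sub_zero]
    have hcs : (Real.cosh t : ℂ) ^ 2 - (Real.sinh t : ℂ) ^ 2 = 1 := by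
      exact_mod_cast Real.cosh_sq_sub_sinh_sq t
    have p1 := mul_pow_pred (n + 2 * κ) (Real.cosh t : ℂ)
    have p2 := mul_pow_pred n (Real.sinh t : ℂ)
    have e1 : ((n + 2 * κ : ℕ) : ℂ) = (n : ℂ) + 2 * κ := by push_cast; ring
    rw [e1] at p1 ⊢
    have hsc : (Real.sinh t : ℂ) * (Real.cosh t : ℂ) ≠ 0 := mul_ne_zero hs hcc
    refine (mul_eq_zero.1 (?_ : ((Real.sinh t : ℂ) * (Real.cosh t : ℂ)) * _ = 0)).resolve_left hsc
    generalize (Real.sinh t : ℂ) = S at *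
    generalize (Real.cosh t : ℂ) = R at *
    linear_combination (R ^ (n + 2 * κ) * S ^ n) * hk + (φ 0 t * S ^ 2 * S ^ n) * p1 -
      (φ 0 t * R ^ (n + 2 * κ) * R ^ 2) * p2 -
      (R ^ (n + 2 * κ) * S ^ n * ((n : ℂ) + κ) * φ 0 t) * hcs
  refine ⟨Q 1, fun t ht => ?_⟩
  have hs : (Real.sinh t : ℂ) ≠ 0 := by
    have : Real.sinh t ≠ 0 := (Real.sinh_pos_iff.2 ht).ne'
    exact_mod_cast this
  have h1 : Q t = Q 1 := by
    have hconv : Convex ℝ (Set.Ioi (0 : ℝ)) := convex_Ioi 0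
    refine hconv.is_const_of_fderivWithin_eq_zero (𝕜 := ℝ) (f := Q) (fun x hx =>
      (hder x hx).differentiableAt.differentiableWithinAt) (fun x hx => ?_) ht (Set.mem_Ioi.2 one_pos)
    have h2 := (hder x hx).hasFDerivAt.hasFDerivWithinAt (s := Set.Ioi (0 : ℝ))
    rw [h2.fderivWithin (isOpen_Ioi.uniqueDiffWithinAt hx)]
    ext
    simp
  rw [← h1]
  simp only [hQ]
  rw [div_mul_cancel₀ _ (pow_ne_zero n hs)]

/-- The leading coefficients at zero. -/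
noncomputable def lc (κ n : ℕ) (c : ℂ) : ℕ → ℂ
  | 0 => c
  | m + 1 => ((n : ℂ) - m) / ((m : ℂ) + 2 * κ) * lc κ n c m

theorem lc_succ (κ n : ℕ) (c : ℂ) (m : ℕ) :
    lc κ n c (m + 1) = ((n : ℂ) - m) / ((m : ℂ) + 2 * κ) * lc κ n c m := rfl

theorem lc_eq (hκ : 0 < κ) (n : ℕ) (c : ℂ) (m : ℕ) (hm : m ≤ n) :
    lc κ n c m * ((2 * κ).ascFactorial m : ℕ) = c * (n.descFactorial m : ℕ) := by
  induction m with
  | zero => simp [lc]
  | succ m ih =>
    have h1 := ih (by omega)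
    have hne : (m : ℂ) + 2 * κ ≠ 0 := by exact_mod_cast (by omega : m + 2 * κ ≠ 0)
    rw [lc_succ, Nat.ascFactorial_succ, Nat.descFactorial_succ]
    push_cast
    rw [Nat.cast_sub (by omega : m ≤ n)]
    rw [div_mul_eq_mul_div, div_mul_eq_mul_div, div_eq_iff hne]
    linear_combination (((n : ℂ) - m) * ((m : ℂ) + 2 * κ)) * h1

theorem lc_self (hκ : 0 < κ) (n : ℕ) (c : ℂ) :
    lc κ n c n * ((n + 2 * κ - 1).choose n : ℕ) = c := by
  have h1 := lc_eq hκ n c n le_rfl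
  rw [Nat.ascFactorial_eq_factorial_mul_choose', Nat.descFactorial_self] at h1
  have h2 : (n.factorial : ℂ) ≠ 0 := by exact_mod_cast n.factorial_ne_zero
  have h3 : 2 * κ + n - 1 = n + 2 * κ - 1 := by omega
  rw [h3] at h1
  push_cast at h1
  apply mul_left_cancel₀ h2
  linear_combination h1

theorem Sys.limit (h : Sys κ n c₀ φ) (hκ : 0 < κ) {c : ℂ} (hc : ∀ t : ℝ, 0 < t →
    φ 0 t * (Real.cosh t : ℂ) ^ (n + 2 * κ) = c * (Real.sinh t : ℂ) ^ n) (m : ℕ) :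
    (m ≤ n → Tendsto (fun t : ℝ => φ m t / (t : ℂ) ^ (n - m)) (𝓝[>] 0) (𝓝 (lc κ n c m))) ∧
    (m + 1 ≤ n → Tendsto (fun t : ℝ => φ (m + 1) t / (t : ℂ) ^ (n - (m + 1))) (𝓝[>] 0)
      (𝓝 (lc κ n c (m + 1)))) := by
  have hcont : ∀ f : ℝ → ℝ, Continuous f → Tendsto (fun t : ℝ => ((f t : ℝ) : ℂ)) (𝓝[>] 0)
      (𝓝 ((f 0 : ℝ) : ℂ)) := fun f hf =>
    ((Complex.continuous_ofReal.comp hf).tendsto 0).mono_left nhdsWithin_le_nhds
  -- the step
  have step : ∀ (m : ℕ), m + 1 ≤ n → ∀ (L : ℂ),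
      Tendsto (fun t : ℝ => φ m t / (t : ℂ) ^ (n - m)) (𝓝[>] 0) (𝓝 L) →
      (Tendsto (fun t : ℝ => (m : ℂ) * ((Real.sinh (2 * t) * t : ℝ) : ℂ) *
        (φ (m - 1) t / (t : ℂ) ^ (n - m + 1))) (𝓝[>] 0) (𝓝 0)) →
      Tendsto (fun t : ℝ => φ (m + 1) t / (t : ℂ) ^ (n - (m + 1))) (𝓝[>] 0)
        (𝓝 (((n : ℂ) - m) / ((m : ℂ) + 2 * κ) * L)) := by
    intro m hm L hL h0
    have h1 : Tendsto (fun t : ℝ => (((t / Real.sinh (2 * t) : ℝ) : ℂ)) * (1 / ((m : ℂ) + 2 * κ)) *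
        ((2 * ((n : ℂ) + κ) - 2 * (Real.cosh (2 * t) : ℂ) * ((m : ℂ) + κ)) *
          (φ m t / (t : ℂ) ^ (n - m)) - (m : ℂ) * ((Real.sinh (2 * t) * t : ℝ) : ℂ) *
        (φ (m - 1) t / (t : ℂ) ^ (n - m + 1)))) (𝓝[>] 0)
        (𝓝 ((((1 / 2 : ℝ) : ℂ)) * (1 / ((m : ℂ) + 2 * κ)) *
          ((2 * ((n : ℂ) + κ) - 2 * ((1 : ℝ) : ℂ) * ((m : ℂ) + κ)) * L - 0))) := by
      refine (((Complex.continuous_ofReal.tendsto _).comp tendsto_div_sinh_two).mul_const _).mul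
        ((Tendsto.mul ?_ hL).sub h0)
      refine tendsto_const_nhds.sub ((Tendsto.mul tendsto_const_nhds ?_).mul_const _)
      have := hcont (fun t => Real.cosh (2 * t)) (Real.continuous_cosh.comp (continuous_const.mul continuous_id))
      simpa using this
    have e : (((1 / 2 : ℝ) : ℂ)) * (1 / ((m : ℂ) + 2 * κ)) *
          ((2 * ((n : ℂ) + κ) - 2 * ((1 : ℝ) : ℂ) * ((m : ℂ) + κ)) * L - 0) =
        ((n : ℂ) - m) / ((m : ℂ) + 2 * κ) * L := by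
      push_cast
      ring
    rw [e] at h1
    refine h1.congr' ?_
    filter_upwards [self_mem_nhdsWithin] with t ht
    have ht0 : (0 : ℝ) < t := ht
    have htc : (t : ℂ) ≠ 0 := by exact_mod_cast ht0.ne'
    have hs : Real.sinh (2 * t) ≠ 0 := (Real.sinh_pos_iff.2 (by linarith)).ne'
    have hsc : (Real.sinh (2 * t) : ℂ) ≠ 0 := by exact_mod_cast hs
    have hm2 : (m : ℂ) + 2 * κ ≠ 0 := by exact_mod_cast (by omega : m + 2 * κ ≠ 0)
    have hr := h.rel m t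
    obtain ⟨d, hd⟩ : ∃ d, n - m = d + 1 := ⟨n - m - 1, by omega⟩
    have hd' : n - (m + 1) = d := by omega
    rw [hd, hd', Complex.ofReal_div, Complex.ofReal_mul]
    generalize (Real.sinh (2 * t) : ℂ) = S at hr hsc ⊢
    generalize (Real.cosh (2 * t) : ℂ) = Q at hr ⊢
    have e1 : (t : ℂ) ^ (d + 1) = (t : ℂ) ^ d * t := pow_succ _ _
    have e2 : (t : ℂ) ^ (d + 1 + 1) = (t : ℂ) ^ d * t * t := by rw [pow_succ, pow_succ]
    have e3 : (t : ℂ) ^ d ≠ 0 := pow_ne_zero _ htc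
    rw [e1, e2]
    field_simp
    linear_combination hr
  have base : Tendsto (fun t : ℝ => φ 0 t / (t : ℂ) ^ (n - 0)) (𝓝[>] 0) (𝓝 (lc κ n c 0)) := by
    have h1 : Tendsto (fun t : ℝ => c * (((Real.sinh t / t) : ℝ) : ℂ) ^ n /
        (Real.cosh t : ℂ) ^ (n + 2 * κ))
        (𝓝[>] 0) (𝓝 (c * ((1 : ℝ) : ℂ) ^ n / ((1 : ℝ) : ℂ) ^ (n + 2 * κ))) := by
      refine Tendsto.div ((((Complex.continuous_ofReal.tendsto _).comp tendsto_sinh_div).pow n).const_mul c)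
        ?_ (by simp)
      have := hcont Real.cosh Real.continuous_cosh
      rw [Real.cosh_zero] at this
      exact this.pow _
    have e : c * ((1 : ℝ) : ℂ) ^ n / ((1 : ℝ) : ℂ) ^ (n + 2 * κ) = lc κ n c 0 := by
      simp [lc]
    rw [e] at h1
    refine h1.congr' ?_
    filter_upwards [self_mem_nhdsWithin] with t ht
    have ht0 : (0 : ℝ) < t := ht
    have htc : (t : ℂ) ≠ 0 := by exact_mod_cast ht0.ne'
    have hcc : (Real.cosh t : ℂ) ≠ 0 := by exact_mod_cast (Real.cosh_pos t).ne'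
    have h2 := hc t ht0
    rw [Nat.sub_zero, Complex.ofReal_div, div_pow]
    generalize (Real.sinh t : ℂ) = S at *
    generalize (Real.cosh t : ℂ) = R at *
    have hR : R ^ (n + 2 * κ) ≠ 0 := pow_ne_zero _ hcc
    have hT : (t : ℂ) ^ n ≠ 0 := pow_ne_zero _ htc
    field_simp
    linear_combination -h2
  induction m with
  | zero =>
    refine ⟨fun _ => base, fun h1n => ?_⟩
    exact step 0 h1n _ base (by simp)
  | succ m ih =>
    refine ⟨ih.2, fun hm => ?_⟩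
    have h1 := ih.2 (by omega)
    have h0 := ih.1 (by omega)
    have h2 : Tendsto (fun t : ℝ => ((m + 1 : ℕ) : ℂ) * ((Real.sinh (2 * t) * t : ℝ) : ℂ) *
        (φ (m + 1 - 1) t / (t : ℂ) ^ (n - (m + 1) + 1))) (𝓝[>] 0) (𝓝 0) := by
      have e1 : n - (m + 1) + 1 = n - m := by omega
      rw [e1, Nat.add_sub_cancel]
      have h3 := hcont (fun t => Real.sinh (2 * t) * t)
        ((Real.continuous_sinh.comp (continuous_const.mul continuous_id)).mul continuous_id)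
      have h4 := (h3.const_mul ((m + 1 : ℕ) : ℂ)).mul h0
      simpa using h4
    exact step (m + 1) hm _ h1 h2

/-- The first matrix coefficient. -/
theorem Sys.zero_eq (h : Sys κ n c₀ φ) (hκ : 0 < κ) (t : ℝ) (ht : 0 < t) :
    φ 0 t * (Real.cosh t : ℂ) ^ (n + 2 * κ) =
      c₀ * ((n + 2 * κ - 1).choose n : ℕ) * (Real.sinh t : ℂ) ^ n := by
  obtain ⟨c, hc⟩ := h.const
  have h1 := (h.limit hκ hc n).1 le_rfl
  have h2 : Tendsto (fun t : ℝ => φ n t / (t : ℂ) ^ (n - n)) (𝓝[>] 0) (𝓝 c₀) := by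
    rw [Nat.sub_self]
    simp only [pow_zero, div_one]
    rw [← h.ini]
    exact (h.der n 0).continuousAt.tendsto.mono_left nhdsWithin_le_nhds
  have h3 := tendsto_nhds_unique h1 h2
  have h4 := lc_self hκ n c
  rw [h3] at h4
  rw [hc t ht, h4]

/-- All matrix coefficients for the lowest weight vector. -/
theorem Sys.all_eq (h : Sys κ 0 c₀ φ) (hκ : 0 < κ) (t : ℝ) (ht : 0 < t) (m : ℕ) :
    φ m t * (Real.cosh t : ℂ) ^ (m + 2 * κ) = c₀ * (-(Real.sinh t : ℂ)) ^ m ∧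
      φ (m + 1) t * (Real.cosh t : ℂ) ^ (m + 1 + 2 * κ) = c₀ * (-(Real.sinh t : ℂ)) ^ (m + 1) := by
  have hcc : (Real.cosh t : ℂ) ≠ 0 := by exact_mod_cast (Real.cosh_pos t).ne'
  have hs : (Real.sinh t : ℂ) ≠ 0 := by
    have : Real.sinh t ≠ 0 := (Real.sinh_pos_iff.2 ht).ne'
    exact_mod_cast this
  have hcs : (Real.cosh t : ℂ) ^ 2 - (Real.sinh t : ℂ) ^ 2 = 1 := by
    exact_mod_cast Real.cosh_sq_sub_sinh_sq t
  have hκ0 : (κ : ℂ) ≠ 0 := by exact_mod_cast hκ.ne'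
  have h0 : φ 0 t * (Real.cosh t : ℂ) ^ (0 + 2 * κ) = c₀ * (-(Real.sinh t : ℂ)) ^ 0 := by
    have := h.zero_eq hκ t ht
    rw [Nat.choose_zero_right] at this
    simpa using this
  induction m with
  | zero =>
    refine ⟨h0, ?_⟩
    have h1 := h.key t
    have h2 : (2 * (Real.sinh t : ℂ) * κ) * (φ 1 t * (Real.cosh t : ℂ) ^ (0 + 1 + 2 * κ)) =
        (2 * (Real.sinh t : ℂ) * κ) * (c₀ * (-(Real.sinh t : ℂ)) ^ (0 + 1)) := by
      have e : (Real.cosh t : ℂ) ^ (0 + 1 + 2 * κ) =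
          (Real.cosh t : ℂ) ^ (0 + 2 * κ) * (Real.cosh t : ℂ) := by ring
      rw [e]
      simp only [pow_zero, pow_one, Nat.cast_zero, zero_add, mul_one] at h1 h0 ⊢
      generalize (Real.sinh t : ℂ) = S at *
      generalize (Real.cosh t : ℂ) = R at *
      linear_combination R ^ (2 * κ) * h1 + (κ - κ * (R ^ 2 + S ^ 2)) * h0 - (κ * c₀) * hcs
    exact mul_left_cancel₀ (mul_ne_zero (mul_ne_zero two_ne_zero hs) hκ0) h2
  | succ m ih =>
    refine ⟨ih.2, ?_⟩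
    obtain ⟨i1, i2⟩ := ih
    have h1 := h.rel (m + 1) t
    rw [cosh_two, sinh_two, Nat.add_sub_cancel] at h1
    simp only [Complex.ofReal_add, Complex.ofReal_pow, Complex.ofReal_mul, Complex.ofReal_ofNat,
      Nat.cast_zero, zero_add, Nat.cast_add, Nat.cast_one] at h1
    have hm3 : (m : ℂ) + 1 + 2 * κ ≠ 0 := by exact_mod_cast (by omega : m + 1 + 2 * κ ≠ 0)
    have h2 : (2 * (Real.sinh t : ℂ) * ((m : ℂ) + 1 + 2 * κ)) *
        (φ (m + 1 + 1) t * (Real.cosh t : ℂ) ^ (m + 1 + 1 + 2 * κ)) =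
        (2 * (Real.sinh t : ℂ) * ((m : ℂ) + 1 + 2 * κ)) *
          (c₀ * (-(Real.sinh t : ℂ)) ^ (m + 1 + 1)) := by
      have e1 : (Real.cosh t : ℂ) ^ (m + 1 + 1 + 2 * κ) =
          (Real.cosh t : ℂ) ^ (m + 2 * κ) * (Real.cosh t : ℂ) ^ 2 := by ring
      have e2 : (Real.cosh t : ℂ) ^ (m + 1 + 2 * κ) =
          (Real.cosh t : ℂ) ^ (m + 2 * κ) * (Real.cosh t : ℂ) := by ring
      have e3 : (-(Real.sinh t : ℂ)) ^ (m + 1 + 1) =
          (-(Real.sinh t : ℂ)) ^ m * (Real.sinh t : ℂ) ^ 2 := by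
        rw [pow_succ, pow_succ]
        ring
      have e4 : (-(Real.sinh t : ℂ)) ^ (m + 1) =
          -((-(Real.sinh t : ℂ)) ^ m * (Real.sinh t : ℂ)) := by
        rw [pow_succ]
        ring
      rw [e2, e4] at i2
      rw [e1, e3]
      generalize (Real.sinh t : ℂ) = S at *
      generalize (Real.cosh t : ℂ) = Q at *
      linear_combination (-Q ^ (m + 2 * κ) * Q) * h1 +
        (2 * κ - 2 * ((m : ℂ) + 1 + κ) * (Q ^ 2 + S ^ 2)) * i2 -
        (2 * S * Q ^ 2 * ((m : ℂ) + 1)) * i1 +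
        (2 * κ * c₀ * (-S) ^ m * S) * hcs
    exact mul_left_cancel₀ (mul_ne_zero (mul_ne_zero two_ne_zero hs) hm3) h2

end Q4.Sub
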