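import Pool.Agent.Q4.Sub.Glob
import Pool.Agent.Q4.Sub.Phi
import Pool.Agent.Q4.Lip.Up

/-!
# An arbitrary norm on the extension
-/

open Filter Topology ComplexConjugate

namespace Q4.Sub

open Q4.HC Q4.Lip

/-- An element of the first factor. -/
def in1 (g : SL) : GG := (g, 1)

/-- An element of the second factor. -/
def in2 (t : ℝ) : GG := (1, Multiplicative.ofAdd t)

theorem in1_mul (g h : SL) : in1 (g * h) = in1 g * in1 h :=
  Prod.ext rfl (one_mul (1 : Multiplicative ℝ)).symm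

theorem in2_add (s t : ℝ) : in2 (s + t) = in2 s * in2 t :=
  Prod.ext (one_mul (1 : SL)).symm rfl

theorem in1_one : in1 1 = 1 := rfl

theorem in2_zero : in2 0 = 1 := rfl

theorem in1_pow (g : SL) (k : ℕ) : in1 g ^ k = in1 (g ^ k) := by
  induction k with
  | zero => rw [pow_zero, pow_zero, in1_one]
  | succ k ih => rw [pow_succ, pow_succ, in1_mul, ih]

/-- The weight vectors. -/
noncomputable def ev (a b : ℂ) (m : ℕ) : VW := (Finsupp.single m a, Finsupp.single m b)

theorem hact_ev (κ : ℕ) (y : Matrix (Fin 2) (Fin 2) ℝ) (a b : ℂ) (m : ℕ) :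
    ((hact κ y (ev a b m).1, hact κ y (ev a b m).2) : VW) =
      (((m : ℂ) + 2 * κ) * ((y 0 0 : ℂ) - ((y 1 0 + y 0 1 : ℝ) : ℂ) * Complex.I / 2)) •
        ev a b (m + 1) +
      ((m : ℂ) * (-((y 0 0 : ℂ) + ((y 1 0 + y 0 1 : ℝ) : ℂ) * Complex.I / 2))) •
        ev a b (m - 1) +
      (((m : ℂ) + κ) * (-(((y 1 0 - y 0 1 : ℝ) : ℂ) * Complex.I))) • ev a b m := by
  have key : ∀ c : ℂ, hact κ y (Finsupp.single m c) =
      (((m : ℂ) + 2 * κ) * ((y 0 0 : ℂ) - ((y 1 0 + y 0 1 : ℝ) : ℂ) * Complex.I / 2)) •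
        (Finsupp.single (m + 1) c : VP) +
      ((m : ℂ) * (-((y 0 0 : ℂ) + ((y 1 0 + y 0 1 : ℝ) : ℂ) * Complex.I / 2))) •
        (Finsupp.single (m - 1) c : VP) +
      (((m : ℂ) + κ) * (-(((y 1 0 - y 0 1 : ℝ) : ℂ) * Complex.I))) •
        (Finsupp.single m c : VP) := by
    intro c
    rw [hact_single, Finsupp.smul_single, Finsupp.smul_single, Finsupp.smul_single, smul_eq_mul,
      smul_eq_mul, smul_eq_mul]
    congr 1
    · congr 1
      · congr 1
        ring
      · congr 1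
        ring
    · congr 1
      ring
  exact Prod.ext (key a) (key b)

section

variable {E : Type} [NormedAddCommGroup E] [NormedSpace ℂ E] {κ : ℕ}
  {p : VW → ℝ} {π : GG →* (E →L[ℂ] E)} {j : VW →ₗ[ℂ] E}

theorem orbit_deriv (hE : IsGlobalization (DU κ) p π j) {X : Matrix (Fin 2) (Fin 2) ℝ} {y : ℝ}
    {γ : ℝ → GG} (hadd : ∀ s t, γ (s + t) = γ s * γ t)
    (hder : ∀ a b, HasDerivAt (fun t => (γ t).1 a b) (X a b) 0)
    (hder' : HasDerivAt (fun t => Multiplicative.toAdd (γ t).2) y 0) (v : VW) (t : ℝ) :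
    HasDerivAt (fun t => π (γ t) (j v)) (π (γ t) (j ((DU κ).act X y v))) t := by
  have h1 := hE.deriv X y γ hadd hder hder' v
  have h2 : HasDerivAt (fun s => π (γ t) (π (γ s) (j v))) (π (γ t) (j ((DU κ).act X y v))) 0 :=
    ((π (γ t)).restrictScalars ℝ).hasFDerivAt.comp_hasDerivAt 0 h1
  have h3 : HasDerivAt (fun s => π (γ s) (j v)) (π (γ t) (j ((DU κ).act X y v))) (t + 0) := by
    have h4 : (fun s => π (γ t) (π (γ s) (j v))) = fun s => (fun s => π (γ s) (j v)) (t + s) := by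
      funext s
      change π (γ t) (π (γ s) (j v)) = π (γ (t + s)) (j v)
      rw [hadd, map_mul]
      rfl
    rw [h4] at h2
    have h5 := (HasDerivAt.scomp (t + 0) (h := fun u => u - t) (g₁ := fun s => (fun s => π (γ s) (j v)) (t + s))
      (g₁' := π (γ t) (j ((DU κ).act X y v))) (h' := 1) (by simpa using h2) (by
        simpa using (hasDerivAt_id (t + 0)).sub_const t))
    simpa [Function.comp_def] using h5
  simpa using h3

theorem orbit_in1 (hE : IsGlobalization (DU κ) p π j) {y : Matrix (Fin 2) (Fin 2) ℝ} {σ : ℝ → SL}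
    (h : OneP y σ) (v : VW) (t : ℝ) :
    HasDerivAt (fun t => π (in1 (σ t)) (j v))
      (π (in1 (σ t)) (j (hact κ y v.1, hact κ y v.2))) t := by
  have h1 := orbit_deriv hE (X := y) (y := 0) (γ := fun t => in1 (σ t))
    (fun s t => by rw [h.add, in1_mul]) (fun a b => h.der a b) (hasDerivAt_const _ _) v t
  have h2 : (DU κ).act y 0 v = (hact κ y v.1, hact κ y v.2) := by
    rw [DU_act, Complex.ofReal_zero, zero_smul, add_zero]
  rwa [h2] at h1

theorem orbit_in2 (hE : IsGlobalization (DU κ) p π j) (v : VW) (t : ℝ) :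
    HasDerivAt (fun t => π (in2 t) (j v)) (π (in2 t) (j (v.2, 0))) t := by
  have h1 := orbit_deriv hE (X := 0) (y := 1) (γ := fun t => in2 t) in2_add
    (fun a b => hasDerivAt_const _ _) (hasDerivAt_id _) v t
  have h2 : (DU κ).act 0 1 v = (v.2, 0) := by
    rw [DU_act]
    simp [hact]
  rwa [h2] at h1

theorem pi_in2 (hE : IsGlobalization (DU κ) p π j) (v : VW) (t : ℝ) :
    π (in2 t) (j v) = j v + t • j (v.2, 0) := by
  have h0 : ∀ (u : VP) (t : ℝ), π (in2 t) (j (u, 0)) = j (u, 0) := by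
    intro u t
    have h1 : π (in2 t) (j (u, 0)) = π (in2 0) (j (u, 0)) :=
      const_of_deriv (f := fun t => π (in2 t) (j (u, 0))) (fun t => by
        have h2 := orbit_in2 hE (u, 0) t
        refine h2.congr_deriv ?_
        have e : ((0, 0) : VW) = 0 := rfl
        simp [e]) t
    rw [h1, in2_zero, map_one]
    rfl
  have h1 := const_of_deriv (f := fun t : ℝ => π (in2 t) (j v) - t • j (v.2, 0)) (fun t => by
    have h2 := orbit_in2 hE v t
    have h3 := (hasDerivAt_id t).smul_const (j (v.2, 0))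
    refine (h2.fun_sub h3).congr_deriv ?_
    rw [h0, one_smul, sub_self]) t
  simp only [zero_smul, sub_zero] at h1
  rw [in2_zero, map_one] at h1
  exact sub_eq_iff_eq_add.1 h1

/-- The rotations of the first factor. -/
theorem pi_rot (hE : IsGlobalization (DU κ) p π j) (n : ℕ) (c d : ℂ) (θ : ℝ) :
    π (in1 (rotS θ)) (j (ev c d n)) =
      Complex.exp (-(2 * ((n : ℂ) + κ)) * Complex.I * θ) • j (ev c d n) := by
  have hact_rot : ((hact κ !![0, -1; 1, 0] (ev c d n).1, hact κ !![0, -1; 1, 0] (ev c d n).2) : VW) =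
      (-(2 * ((n : ℂ) + κ)) * Complex.I) • ev c d n := by
    rw [hact_ev]
    have e1 : ((((!![0, -1; 1, 0] : Matrix (Fin 2) (Fin 2) ℝ) 0 0 : ℝ)) : ℂ) = 0 := by simp
    have e2 : (((!![0, -1; 1, 0] : Matrix (Fin 2) (Fin 2) ℝ) 1 0 +
      (!![0, -1; 1, 0] : Matrix (Fin 2) (Fin 2) ℝ) 0 1 : ℝ) : ℂ) = 0 := by simp
    have e3 : (((!![0, -1; 1, 0] : Matrix (Fin 2) (Fin 2) ℝ) 1 0 -
      (!![0, -1; 1, 0] : Matrix (Fin 2) (Fin 2) ℝ) 0 1 : ℝ) : ℂ) = 2 := by
      simp
      norm_num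
    rw [e1, e2, e3]
    module
  have h1 := const_of_deriv (f := fun θ : ℝ => Complex.exp ((2 * ((n : ℂ) + κ)) * Complex.I * θ) •
      π (in1 (rotS θ)) (j (ev c d n))) (fun θ => by
    have h2 := orbit_in1 hE onep_rot (ev c d n) θ
    have h3 : HasDerivAt (fun θ : ℝ => Complex.exp ((2 * ((n : ℂ) + κ)) * Complex.I * θ))
        (Complex.exp ((2 * ((n : ℂ) + κ)) * Complex.I * θ) * ((2 * ((n : ℂ) + κ)) * Complex.I)) θ := by
      have h4 : HasDerivAt (fun θ : ℝ => (2 * ((n : ℂ) + κ)) * Complex.I * (θ : ℂ))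
          ((2 * ((n : ℂ) + κ)) * Complex.I) θ := by
        have := (Complex.ofRealCLM.hasDerivAt (x := θ)).const_mul ((2 * ((n : ℂ) + κ)) * Complex.I)
        simpa using this
      exact h4.cexp
    refine (h3.fun_smul h2).congr_deriv ?_
    rw [hact_rot, map_smul, map_smul]
    module) θ
  simp only [Complex.ofReal_zero, mul_zero, Complex.exp_zero, one_smul] at h1
  rw [onep_rot.zero, in1_one, map_one] at h1
  change Complex.exp ((2 * ((n : ℂ) + κ)) * Complex.I * θ) • π (in1 (rotS θ)) (j (ev c d n)) =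
    j (ev c d n) at h1
  have h2 : Complex.exp (-(2 * ((n : ℂ) + κ)) * Complex.I * θ) *
      Complex.exp ((2 * ((n : ℂ) + κ)) * Complex.I * θ) = 1 := by
    rw [← Complex.exp_add]
    ring_nf
    exact Complex.exp_zero
  conv_rhs => rw [← h1]
  rw [smul_smul, h2, one_smul]

variable {C : ℝ}

/-- The data of an element of `Norm(U, w)`. -/
structure Bd (κ : ℕ) (p : VW → ℝ) (π : GG →* (E →L[ℂ] E)) (j : VW →ₗ[ℂ] E) (C : ℝ) : Prop where
  gl : IsGlobalization (DU κ) p π j
  pos : 0 < C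
  gr : ∀ g x, ‖π g x‖ ≤ C * wk κ g * ‖x‖

theorem Bd.of (hE : IsGlobalization (DU κ) p π j) (hC : 0 < C)
    (hg : ∀ g v, ‖π g (j v)‖ ≤ C * wk κ g * p v) : Bd κ p π j C where
  gl := hE
  pos := hC
  gr g x := by
    refine hE.dense.induction_on (p := fun x => ‖π g x‖ ≤ C * wk κ g * ‖x‖) x ?_ fun v => ?_
    · exact isClosed_le (π g).continuous.norm (continuous_const.mul continuous_norm)
    · rw [hE.norm_eq]
      exact hg g v

theorem wk_in1 (κ : ℕ) (g : SL) : wk κ (in1 g) = sz g ^ (2 * κ) := by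
  have h1 : (1 : ℝ) ≤ sz g ^ (2 * κ) := one_le_pow₀ (one_le_sz g)
  change max (sz g ^ (2 * κ)) (1 + |(0 : ℝ)|) = _
  rw [abs_zero, add_zero, max_eq_left h1]

theorem tendsto_aux {T : E →L[ℂ] E} (L : VP →ₗ[ℂ] E)
    (hL : ∀ m c, T (L (Finsupp.single m c)) = lam κ m • L (Finsupp.single m c)) (n : ℕ) (u : VP) :
    Tendsto (fun N => AA T (lam κ n) N (L u)) atTop (𝓝 (L (Finsupp.single n (u n)))) := by
  have hln : lam κ n ≠ 0 := by
    intro h
    have := norm_lam κ n
    rw [h, norm_zero] at this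
    exact zero_ne_one this
  induction u using Finsupp.induction_linear with
  | zero =>
    have : ∀ N, AA T (lam κ n) N (0 : E) = 0 := by
      intro N
      rw [AA]
      simp
    rw [Finsupp.zero_apply, Finsupp.single_zero, map_zero]
    simp only [this]
    exact tendsto_const_nhds
  | add f g hf hg =>
    rw [map_add, Finsupp.add_apply, Finsupp.single_add, map_add]
    simp only [AA_add]
    exact hf.add hg
  | single m c =>
    simp only [AA_eig (hL m c)]
    by_cases hmn : m = n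
    · subst hmn
      rw [Finsupp.single_eq_same, inv_mul_cancel₀ hln]
      have := av_tendsto_one.smul_const (L (Finsupp.single m c))
      rwa [one_smul] at this
    · rw [Finsupp.single_eq_of_ne (Ne.symm hmn), Finsupp.single_zero, map_zero]
      have h2 : (lam κ n)⁻¹ * lam κ m ≠ 1 := by
        intro h
        apply hmn
        apply lam_inj κ
        calc lam κ m = lam κ n * ((lam κ n)⁻¹ * lam κ m) := by field_simp
          _ = lam κ n := by rw [h, mul_one]
      have h3 : ‖(lam κ n)⁻¹ * lam κ m‖ = 1 := by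
        rw [norm_mul, norm_inv, norm_lam, norm_lam, inv_one, one_mul]
      have := (av_tendsto_zero h3 h2).smul_const (L (Finsupp.single m c))
      rwa [zero_smul] at this

namespace Bd

variable (h : Bd κ p π j C)

include h

theorem bound_a (g : SL) (x : E) : ‖π (in1 g) x‖ ≤ C * sz g ^ (2 * κ) * ‖x‖ := by
  have := h.gr (in1 g) x
  rwa [wk_in1] at this

theorem bound_b (g : SL) (v : VW) : ‖π (in1 g) (j (v.2, 0))‖ ≤ 3 * C * ‖j v‖ := by
  set s : ℝ := sz g ^ (2 * κ) with hs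
  have hs1 : 1 ≤ s := one_le_pow₀ (one_le_sz g)
  have hs0 : 0 < s := by linarith
  have hC := h.pos
  have h1 := h.gr (in1 g * in2 s) (j v)
  have h2 : π (in1 g * in2 s) (j v) = π (in1 g) (j v) + s • π (in1 g) (j (v.2, 0)) := by
    rw [map_mul]
    change π (in1 g) (π (in2 s) (j v)) = _
    rw [pi_in2 h.gl, map_add]
    congr 1
    exact ((π (in1 g)).restrictScalars ℝ).map_smul _ _
  have h3 : wk κ (in1 g * in2 s) ≤ 2 * s := by
    change max (sz (g * 1) ^ (2 * κ)) (1 + |(0 : ℝ) + s|) ≤ _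
    rw [mul_one, ← hs, zero_add, abs_of_pos hs0]
    refine max_le ?_ ?_ <;> linarith
  have h4 := h.bound_a g (j v)
  rw [← hs] at h4
  have h5 : s • π (in1 g) (j (v.2, 0)) = π (in1 g * in2 s) (j v) - π (in1 g) (j v) := by
    rw [h2]
    abel
  have h6 : s * ‖π (in1 g) (j (v.2, 0))‖ ≤ s * (3 * C * ‖j v‖) := by
    calc s * ‖π (in1 g) (j (v.2, 0))‖ = ‖s • π (in1 g) (j (v.2, 0))‖ := by
          rw [norm_smul, Real.norm_of_nonneg hs0.le]
      _ ≤ ‖π (in1 g * in2 s) (j v)‖ + ‖π (in1 g) (j v)‖ := by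
          rw [h5]
          exact norm_sub_le _ _
      _ ≤ C * (2 * s) * ‖j v‖ + C * s * ‖j v‖ := by
          refine add_le_add (h1.trans ?_) h4
          gcongr
      _ = _ := by ring
  exact le_of_mul_le_mul_left h6 hs0

theorem rot_pow (k : ℕ) (x : E) : ‖(π (in1 (rotS 1)) ^ k) x‖ ≤ C * ‖x‖ := by
  rw [← map_pow, in1_pow]
  refine (h.bound_a _ x).trans ?_
  have h1 : sz (rotS 1 ^ k) ^ (2 * κ) ≤ 1 := pow_le_one₀ (sz_pos _).le (sz_rot_pow k)
  have h2 := h.pos
  have h4 : C * sz (rotS 1 ^ k) ^ (2 * κ) ≤ C * 1 := by gcongr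
  calc C * sz (rotS 1 ^ k) ^ (2 * κ) * ‖x‖ ≤ C * 1 * ‖x‖ := by gcongr
    _ = _ := by ring

theorem comp_le (v : VW) (n : ℕ) : ‖j (ev (v.1 n) (v.2 n) n)‖ ≤ C * ‖j v‖ := by
  have hrot : ∀ m c d, π (in1 (rotS 1)) (j (ev c d m)) = lam κ m • j (ev c d m) := by
    intro m c d
    rw [pi_rot h.gl, lam_eq, Complex.ofReal_one, mul_one]
  have h1 := tendsto_aux (T := π (in1 (rotS 1))) (j ∘ₗ LinearMap.inl ℂ VP VP) (fun m c => by
    have := hrot m c 0
    rw [ev, Finsupp.single_zero] at this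
    exact this) n v.1
  have h2 := tendsto_aux (T := π (in1 (rotS 1))) (j ∘ₗ LinearMap.inr ℂ VP VP) (fun m c => by
    have := hrot m 0 c
    rw [ev, Finsupp.single_zero] at this
    exact this) n v.2
  have h3 := h1.add h2
  have e1 : ∀ N, AA (π (in1 (rotS 1))) (lam κ n) N ((j ∘ₗ LinearMap.inl ℂ VP VP) v.1) +
      AA (π (in1 (rotS 1))) (lam κ n) N ((j ∘ₗ LinearMap.inr ℂ VP VP) v.2) =
      AA (π (in1 (rotS 1))) (lam κ n) N (j v) := by
    intro N
    rw [← AA_add]
    congr 1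
    change j (v.1, 0) + j (0, v.2) = j v
    rw [← map_add]
    simp
  have e2 : (j ∘ₗ LinearMap.inl ℂ VP VP) (Finsupp.single n (v.1 n)) +
      (j ∘ₗ LinearMap.inr ℂ VP VP) (Finsupp.single n (v.2 n)) = j (ev (v.1 n) (v.2 n) n) := by
    change j (Finsupp.single n (v.1 n), 0) + j (0, Finsupp.single n (v.2 n)) = _
    rw [← map_add]
    simp [ev]
  simp only [e1, e2] at h3
  refine le_of_tendsto h3.norm (Eventually.of_forall fun N => ?_)
  exact AA_le h.pos.le h.rot_pow (norm_lam κ n) N _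

theorem ev_pos {a b : ℂ} (hab : a ≠ 0 ∨ b ≠ 0) (n : ℕ) : 0 < ‖j (ev a b n)‖ := by
  rw [norm_pos_iff]
  intro h0
  have h1 : ev a b n = 0 := h.gl.inj (h0.trans (map_zero j).symm)
  rcases hab with ha | hb
  · have h3 := DFunLike.congr_fun (congrArg Prod.fst h1) n
    simp [ev] at h3
    exact ha h3
  · have h3 := DFunLike.congr_fun (congrArg Prod.snd h1) n
    simp [ev] at h3
    exact hb h3

theorem functional (n : ℕ) {α β : ℂ} {M : ℝ} (hM0 : 0 ≤ M)
    (hM : ∀ a b : ℂ, ‖a * α + b * β‖ ≤ M * ‖j (ev a b n)‖) :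
    ∃ Λ : E →L[ℂ] ℂ, (∀ v : VW, Λ (j v) = v.1 n * α + v.2 n * β) ∧
      ∀ x, ‖Λ x‖ ≤ C * M * ‖x‖ := by
  let f : VW →ₗ[ℂ] ℂ := α • (Finsupp.lapply n ∘ₗ LinearMap.fst ℂ VP VP) +
    β • (Finsupp.lapply n ∘ₗ LinearMap.snd ℂ VP VP)
  have hf : ∀ v, f v = v.1 n * α + v.2 n * β := by
    intro v
    change α * v.1 n + β * v.2 n = _
    ring
  have hbd : ∀ v, ‖f v‖ ≤ (C * M) * ‖j v‖ := by
    intro v
    rw [hf]
    calc ‖v.1 n * α + v.2 n * β‖ ≤ M * ‖j (ev (v.1 n) (v.2 n) n)‖ := hM _ _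
      _ ≤ M * (C * ‖j v‖) := mul_le_mul_of_nonneg_left (h.comp_le v n) hM0
      _ = _ := by ring
  refine ⟨f.extendOfNorm j, fun v => ?_, fun x => ?_⟩
  · rw [← hf]
    exact LinearMap.extendOfNorm_eq h.gl.dense ⟨_, hbd⟩ v
  · exact LinearMap.norm_extendOfNorm_apply_le h.gl.dense _ hbd x

theorem functional_rot {n : ℕ} {α β : ℂ} {Λ : E →L[ℂ] ℂ}
    (hΛ : ∀ v : VW, Λ (j v) = v.1 n * α + v.2 n * β) (θ : ℝ) (x : E) :
    Λ (π (in1 (rotS θ)) x) = Complex.exp (-(2 * ((n : ℂ) + κ)) * Complex.I * θ) * Λ x := by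
  refine h.gl.dense.induction_on (p := fun x => Λ (π (in1 (rotS θ)) x) =
    Complex.exp (-(2 * ((n : ℂ) + κ)) * Complex.I * θ) * Λ x) x ?_ fun v => ?_
  · exact isClosed_eq (Λ.continuous.comp (π (in1 (rotS θ))).continuous)
      (continuous_const.mul Λ.continuous)
  · have key : ∀ (ι : VP →ₗ[ℂ] VW), (∀ m c, ∃ a b, ι (Finsupp.single m c) = ev a b m) →
        ∀ u, Λ (π (in1 (rotS θ)) (j (ι u))) =
          Complex.exp (-(2 * ((n : ℂ) + κ)) * Complex.I * θ) * Λ (j (ι u)) := by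
      intro ι hι u
      induction u using Finsupp.induction_linear with
      | zero =>
        rw [map_zero, map_zero, map_zero, map_zero, mul_zero]
      | add f g hf hg =>
        rw [map_add, map_add, map_add, map_add, map_add, hf, hg]
        ring
      | single m c =>
        obtain ⟨a, b, hab⟩ := hι m c
        rw [hab, pi_rot h.gl, map_smul, smul_eq_mul]
        by_cases hmn : m = n
        · rw [hmn]
        · rw [hΛ]
          have e1 : (ev a b m).1 n = 0 := Finsupp.single_eq_of_ne (Ne.symm hmn)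
          have e2 : (ev a b m).2 n = 0 := Finsupp.single_eq_of_ne (Ne.symm hmn)
          rw [e1, e2]
          ring
    have h1 := key (LinearMap.inl ℂ VP VP) (fun m c => ⟨c, 0, by
      rw [ev, Finsupp.single_zero]
      rfl⟩) v.1
    have h2 := key (LinearMap.inr ℂ VP VP) (fun m c => ⟨0, c, by
      rw [ev, Finsupp.single_zero]
      rfl⟩) v.2
    have h3 : v = LinearMap.inl ℂ VP VP v.1 + LinearMap.inr ℂ VP VP v.2 := by simp
    rw [h3, map_add, map_add, map_add, map_add, h1, h2]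
    ring

/-- The matrix coefficients satisfy the system. -/
theorem sys {n : ℕ} {α β : ℂ} {Λ : E →L[ℂ] ℂ}
    (hΛ : ∀ v : VW, Λ (j v) = v.1 n * α + v.2 n * β) (a b : ℂ) :
    Sys κ n (a * α + b * β) (fun m t => Λ (π (in1 (dg t)) (j (ev a b m)))) where
  der m t := by
    have h1 := orbit_in1 h.gl onep_dg (ev a b m) t
    have h2 := ((Λ.restrictScalars ℝ).hasFDerivAt
      (x := π (in1 (dg t)) (j (ev a b m)))).comp_hasDerivAt t h1
    refine h2.congr_deriv ?_
    change Λ (π (in1 (dg t)) (j (hact κ !![1, 0; 0, -1] (ev a b m).1,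
      hact κ !![1, 0; 0, -1] (ev a b m).2))) = _
    have e1 : ((((!![1, 0; 0, -1] : Matrix (Fin 2) (Fin 2) ℝ) 0 0 : ℝ)) : ℂ) = 1 := by simp
    have e2 : (((!![1, 0; 0, -1] : Matrix (Fin 2) (Fin 2) ℝ) 1 0 +
      (!![1, 0; 0, -1] : Matrix (Fin 2) (Fin 2) ℝ) 0 1 : ℝ) : ℂ) = 0 := by simp
    have e3 : (((!![1, 0; 0, -1] : Matrix (Fin 2) (Fin 2) ℝ) 1 0 -
      (!![1, 0; 0, -1] : Matrix (Fin 2) (Fin 2) ℝ) 0 1 : ℝ) : ℂ) = 0 := by simp
    rw [hact_ev, e1, e2, e3]
    simp only [map_add, map_smul, smul_eq_mul]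
    ring
  rel m t := by
    set y : Matrix (Fin 2) (Fin 2) ℝ := !![0, -Real.exp (-2 * t); Real.exp (2 * t), 0] with hy
    -- the first derivative
    have h1 := orbit_in1 h.gl (onep_cg t) (ev a b m) 0
    have h2 := ((Λ.comp (π (in1 (dg t)))).restrictScalars ℝ).hasFDerivAt.comp_hasDerivAt (0 : ℝ) h1
    have h3 : HasDerivAt (fun θ : ℝ => Complex.exp (-(2 * ((n : ℂ) + κ)) * Complex.I * θ) *
        Λ (π (in1 (dg t)) (j (ev a b m))))
        ((-(2 * ((n : ℂ) + κ)) * Complex.I) * Λ (π (in1 (dg t)) (j (ev a b m)))) 0 := by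
      have h4 : HasDerivAt (fun θ : ℝ => -(2 * ((n : ℂ) + κ)) * Complex.I * (θ : ℂ))
          (-(2 * ((n : ℂ) + κ)) * Complex.I) 0 := by
        have := (Complex.ofRealCLM.hasDerivAt (x := (0 : ℝ))).const_mul
          (-(2 * ((n : ℂ) + κ)) * Complex.I)
        simpa using this
      refine (h4.cexp.mul_const _).congr_deriv ?_
      simp
    have h5 : (fun θ : ℝ => Complex.exp (-(2 * ((n : ℂ) + κ)) * Complex.I * θ) *
        Λ (π (in1 (dg t)) (j (ev a b m)))) =
        fun θ : ℝ => Λ (π (in1 (dg t)) (π (in1 (cg t θ)) (j (ev a b m)))) := by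
      funext θ
      rw [← h.functional_rot hΛ]
      have e1 : π (in1 (rotS θ)) (π (in1 (dg t)) (j (ev a b m))) =
          π (in1 (rotS θ * dg t)) (j (ev a b m)) := by
        rw [in1_mul, map_mul]
        rfl
      rw [e1, rot_dg, in1_mul, map_mul]
      rfl
    rw [h5] at h3
    have h6 := h3.unique h2
    have h7 : (in1 (cg t 0)) = 1 := by rw [(onep_cg t).zero, in1_one]
    rw [h7, map_one] at h6
    change _ = Λ (π (in1 (dg t)) (j (hact κ y (ev a b m).1, hact κ y (ev a b m).2))) at h6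
    have a1 : ((y 1 0 + y 0 1 : ℝ) : ℂ) = 2 * (Real.sinh (2 * t) : ℂ) := by
      have : y 1 0 + y 0 1 = 2 * Real.sinh (2 * t) := by
        change Real.exp (2 * t) + -Real.exp (-2 * t) = _
        rw [Real.sinh_eq, neg_mul]
        ring
      rw [this]
      push_cast
      rfl
    have a2 : ((y 1 0 - y 0 1 : ℝ) : ℂ) = 2 * (Real.cosh (2 * t) : ℂ) := by
      have : y 1 0 - y 0 1 = 2 * Real.cosh (2 * t) := by
        change Real.exp (2 * t) - -Real.exp (-2 * t) = _
        rw [Real.cosh_eq, neg_mul]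
        ring
      rw [this]
      push_cast
      rfl
    have a3 : ((y 0 0 : ℝ) : ℂ) = 0 := by
      change ((0 : ℝ) : ℂ) = 0
      simp
    rw [hact_ev, a1, a2, a3] at h6
    simp only [map_add, map_smul, smul_eq_mul] at h6
    generalize (Real.sinh (2 * t) : ℂ) = S at *
    generalize (Real.cosh (2 * t) : ℂ) = Q at *
    generalize Λ (π (in1 (dg t)) (j (ev a b m))) = F0 at *
    generalize Λ (π (in1 (dg t)) (j (ev a b (m + 1)))) = F1 at *
    generalize Λ (π (in1 (dg t)) (j (ev a b (m - 1)))) = F2 at *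
    linear_combination (Complex.I) * h6 + (2 * ((n : ℂ) + κ) * F0 - S *
      (((m : ℂ) + 2 * κ) * F1 + (m : ℂ) * F2) - 2 * Q * ((m : ℂ) + κ) * F0) * Complex.I_sq
  ini := by
    rw [onep_dg.zero, in1_one, map_one]
    change Λ (j (ev a b n)) = _
    rw [hΛ]
    have e1 : (ev a b n).1 n = a := Finsupp.single_eq_same
    have e2 : (ev a b n).2 n = b := Finsupp.single_eq_same
    rw [e1, e2]

end Bd

end

end Q4.Sub
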