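import Pool.Agent.Q4.Sub.Disc

/-!
# The closures of the images and the norms of the monomials
-/

open Filter Topology ComplexConjugate

namespace Q4.Sub

open Q4.HC Q4.Lip

/-- The closure of the image of the module. -/
noncomputable def EB (b : ℕ) : Submodule ℂ C(Ds, ℂ) := (LinearMap.range (JJ b)).topologicalClosure

theorem mo_mem (b n : ℕ) : mo b n ∈ LinearMap.range (JJ b) :=
  ⟨Finsupp.single n 1, by rw [JJ_single, one_smul]⟩

theorem oc_mul_mem (b : ℕ) {f : C(Ds, ℂ)} (hf : f ∈ DA) : oc ^ b * f ∈ EB b := by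
  have hcl : IsClosed {f : C(Ds, ℂ) | oc ^ b * f ∈ EB b} :=
    (Submodule.isClosed_topologicalClosure (LinearMap.range (JJ b))).preimage
      (continuous_const.mul continuous_id)
  refine closure_minimal (fun f hf => ?_) hcl hf
  rw [SetLike.mem_coe, Algebra.adjoin_singleton_eq_range_aeval] at hf
  obtain ⟨P, rfl⟩ := hf
  change oc ^ b * Polynomial.aeval Zc P ∈ EB b
  rw [Polynomial.aeval_eq_sum_range, Finset.mul_sum]
  refine Submodule.sum_mem _ fun n _ => ?_
  rw [mul_smul_comm]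
  exact Submodule.smul_mem _ _ (Submodule.le_topologicalClosure _ (mo_mem b n))

theorem RR_mem (κ b : ℕ) (g : SL) {F : C(Ds, ℂ)} (hF : F ∈ EB b) : RR κ b g F ∈ EB b := by
  have h0 : Set.MapsTo (RR κ b g) (LinearMap.range (JJ b) : Set C(Ds, ℂ)) (EB b) := by
    rintro _ ⟨v, rfl⟩
    rw [SetLike.mem_coe]
    induction v using Finsupp.induction_linear with
    | zero => rw [map_zero, map_zero]; exact Submodule.zero_mem _
    | add f g hf hg => rw [map_add, map_add]; exact Submodule.add_mem _ hf hg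
    | single n c =>
      rw [JJ_single, map_smul, RR_mo]
      exact Submodule.smul_mem _ _ (oc_mul_mem b
        (DA.mul_mem (DA.pow_mem (nu_mem g) _) (DA.pow_mem (io_mem g) _)))
  have h1 := h0.closure (RR κ b g).continuous hF
  have h2 : IsClosed (EB b : Set C(Ds, ℂ)) := Submodule.isClosed_topologicalClosure _
  rwa [h2.closure_eq] at h1

theorem span_mo (b : ℕ) : Submodule.span ℂ (Set.range (mo b)) = LinearMap.range (JJ b) := by
  rw [JJ, Finsupp.range_linearCombination]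

/-- An element of `SL(2, ℝ)` with `β = 0` acts diagonally. -/
theorem RR_mo_of_be {g : SL} (hg : be g = 0) (κ b n : ℕ) :
    RR κ b g (mo b n) = ((al g)⁻¹ ^ (2 * (n + κ))) • mo b n := by
  have h1 := al_be g
  rw [hg, zero_mul, sub_zero] at h1
  have hc : conj (al g) = (al g)⁻¹ := eq_inv_of_mul_eq_one_right h1
  have h2 : nu g = algebraMap ℂ _ (al g)⁻¹ * Zc := by
    rw [nu, hg, map_zero, sub_zero, hc]
  have h3 : de g = algebraMap ℂ _ (al g) := by
    rw [de, hg, map_zero, map_zero, zero_mul, sub_zero]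
  have h4 : io g = algebraMap ℂ _ (al g)⁻¹ := by
    have h5 := io_mul g
    rw [h3] at h5
    have h6 : algebraMap ℂ C(Ds, ℂ) (al g) * algebraMap ℂ _ (al g)⁻¹ = 1 := by
      rw [← map_mul, mul_inv_cancel₀ (al_ne g), map_one]
    linear_combination (algebraMap ℂ C(Ds, ℂ) (al g)⁻¹) * h5 - io g * h6
  rw [RR_mo, h2, h4, Algebra.smul_def, mo, map_pow]
  ring

/-- The eigenvalues of the rotation by one radian. -/
noncomputable def lam (κ n : ℕ) : ℂ := (al (rotS 1))⁻¹ ^ (2 * (n + κ))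

theorem norm_lam (κ n : ℕ) : ‖lam κ n‖ = 1 := by
  rw [lam, norm_pow, norm_inv, norm_al_rotS, inv_one, one_pow]

theorem lam_eq (κ n : ℕ) : lam κ n = Complex.exp (-(2 * ((n : ℂ) + κ)) * Complex.I) := by
  rw [lam, al_rotS, ← Complex.exp_neg, ← Complex.exp_nat_mul]
  congr 1
  push_cast
  ring

theorem lam_inj (κ : ℕ) : Function.Injective (lam κ) := by
  intro m n h
  rw [lam_eq, lam_eq, Complex.exp_eq_exp_iff_exists_int] at h
  obtain ⟨k, hk⟩ := h
  have h1 : ((n : ℂ) - m) * (2 * Complex.I) = (k * Real.pi) * (2 * Complex.I) := by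
    linear_combination hk
  have h2 : ((n : ℂ) - m) = k * Real.pi :=
    mul_right_cancel₀ (mul_ne_zero two_ne_zero Complex.I_ne_zero) h1
  have h3 : ((n : ℝ) - m) = k * Real.pi := by exact_mod_cast h2
  by_contra hne
  have hk0 : (k : ℝ) ≠ 0 := by
    intro h0
    rw [h0, zero_mul] at h3
    apply hne
    have : (m : ℝ) = n := by linarith
    exact_mod_cast this
  apply irrational_pi
  refine ⟨((n - m : ℤ) : ℚ) / k, ?_⟩
  push_cast
  rw [h3]
  field_simp

/-! ### The norms of the monomials -/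

theorem norm_mo_apply (b n : ℕ) (z : Ds) :
    ‖mo b n z‖ = (1 - ‖(z : ℂ)‖ ^ 2) ^ b * ‖(z : ℂ)‖ ^ n := by
  rw [mo_apply, norm_mul, norm_pow, norm_pow, norm_oc]

/-- The upper bound for the norm of a monomial. -/
theorem norm_mo_le (b n : ℕ) : ‖mo b n‖ ≤ (2 * (b : ℝ) / ((n : ℝ) + 1)) ^ b := by
  refine (ContinuousMap.norm_le _ (by positivity)).2 fun z => ?_
  rw [norm_mo_apply]
  set x := ‖(z : ℂ)‖ with hx
  have h0 : 0 ≤ x := norm_nonneg _
  have h1 : x ≤ 1 := norm_Ds z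
  rcases b with _ | b
  · rw [pow_zero, pow_zero, one_mul]
    exact pow_le_one₀ h0 h1
  set m := n / (b + 1) with hm
  have hmn : m * (b + 1) ≤ n := Nat.div_mul_le_self n (b + 1)
  have hmn' : n < (m + 1) * (b + 1) := by
    have := Nat.lt_div_mul_add (a := n) (b := b + 1) (Nat.succ_pos b)
    rw [← hm] at this
    linarith
  have h2 : x ^ n ≤ x ^ (m * (b + 1)) := pow_le_pow_of_le_one h0 h1 hmn
  have h3 : 1 - x ^ 2 ≤ 2 * (1 - x) := by nlinarith
  have h3' : 0 ≤ 1 - x ^ 2 := by nlinarith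
  have h4 := mul_pow_le h0 h1 m
  have h5 : (1 : ℝ) / ((m : ℝ) + 1) ≤ ((b : ℝ) + 1) / ((n : ℝ) + 1) := by
    rw [div_le_div_iff₀ (by positivity) (by positivity)]
    have : ((n + 1 : ℕ) : ℝ) ≤ (((m + 1) * (b + 1) : ℕ) : ℝ) := by exact_mod_cast hmn'
    push_cast at this
    nlinarith
  have h6 : 0 ≤ (1 - x) * x ^ m := mul_nonneg (by linarith) (by positivity)
  calc (1 - x ^ 2) ^ (b + 1) * x ^ n ≤ (2 * (1 - x)) ^ (b + 1) * x ^ (m * (b + 1)) := by
        gcongr
    _ = (2 * ((1 - x) * x ^ m)) ^ (b + 1) := by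
        rw [pow_mul, ← mul_pow]
        ring
    _ ≤ (2 * (((b : ℝ) + 1) / ((n : ℝ) + 1))) ^ (b + 1) := by
        gcongr
        linarith
    _ = _ := by
      push_cast
      rw [mul_div_assoc]

/-- The lower bound for the norm of a monomial. -/
theorem one_le_norm_mo (n : ℕ) : 1 ≤ ‖mo 0 n‖ := by
  let z : Ds := ⟨1, by rw [mem_closedBall_zero_iff, norm_one]⟩
  refine le_trans ?_ ((mo 0 n).norm_coe_le_norm z)
  rw [norm_mo_apply]
  change _ ≤ (1 - ‖(1 : ℂ)‖ ^ 2) ^ 0 * ‖(1 : ℂ)‖ ^ n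
  rw [norm_one]
  simp

theorem norm_mo_pos (b n : ℕ) : 0 < ‖mo b n‖ := by
  have hxn : ‖((1 / 2 : ℝ) : ℂ)‖ = 1 / 2 := by
    rw [Complex.norm_real, Real.norm_of_nonneg (by norm_num)]
  let z : Ds := ⟨((1 / 2 : ℝ) : ℂ), by rw [mem_closedBall_zero_iff, hxn]; norm_num⟩
  refine lt_of_lt_of_le ?_ ((mo b n).norm_coe_le_norm z)
  rw [norm_mo_apply]
  change 0 < (1 - ‖((1 / 2 : ℝ) : ℂ)‖ ^ 2) ^ b * ‖((1 / 2 : ℝ) : ℂ)‖ ^ n
  rw [hxn]
  norm_num

/-! ### The restriction of the representation -/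

/-- The restriction of the representation to the closed subspace. -/
noncomputable def Rr (κ b : ℕ) : SL →* (EB b →L[ℂ] EB b) where
  toFun g := ((RR κ b g).comp (EB b).subtypeL).codRestrict (EB b) fun F => RR_mem κ b g F.2
  map_one' := by
    ext F : 1
    apply Subtype.ext
    change RR κ b 1 (F : C(Ds, ℂ)) = F
    rw [map_one]
    rfl
  map_mul' g h := by
    ext F : 1
    apply Subtype.ext
    change RR κ b (g * h) (F : C(Ds, ℂ)) = RR κ b g (RR κ b h (F : C(Ds, ℂ)))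
    rw [map_mul]
    rfl

theorem Rr_coe (κ b : ℕ) (g : SL) (F : EB b) : ((Rr κ b g F : EB b) : C(Ds, ℂ)) = RR κ b g F := rfl

theorem norm_Rr_le {κ b : ℕ} (hb : b ≤ 2 * κ) (g : SL) (F : EB b) :
    ‖Rr κ b g F‖ ≤ sz g ^ (2 * κ) * ‖F‖ :=
  norm_RR_le hb g F

theorem norm_Rr_self_le (κ : ℕ) (g : SL) (F : EB κ) : ‖Rr κ κ g F‖ ≤ ‖F‖ :=
  norm_RR_self_le κ g F

theorem continuous_Rr (κ b : ℕ) (F : EB b) : Continuous fun g => Rr κ b g F :=
  Continuous.subtype_mk (continuous_RR κ b F) _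

/-- The embedding into the closed subspace. -/
noncomputable def JE (b : ℕ) : VP →ₗ[ℂ] EB b :=
  (JJ b).codRestrict (EB b) fun v => Submodule.le_topologicalClosure _ ⟨v, rfl⟩

theorem JE_coe (b : ℕ) (v : VP) : ((JE b v : EB b) : C(Ds, ℂ)) = JJ b v := rfl

theorem RR_rot_pow_le {κ b : ℕ} (hb : b ≤ 2 * κ) (θ : ℝ) (k : ℕ) (x : C(Ds, ℂ)) :
    ‖(RR κ b (rotS θ) ^ k) x‖ ≤ 1 * ‖x‖ := by
  induction k generalizing x with
  | zero => simp
  | succ k ih =>
    rw [pow_succ]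
    change ‖(RR κ b (rotS θ) ^ k) (RR κ b (rotS θ) x)‖ ≤ _
    refine (ih _).trans ?_
    have := norm_RR_le hb (rotS θ) x
    rw [sz_rotS, one_pow] at this
    linarith

theorem RR_rotS (κ b n : ℕ) : RR κ b (rotS 1) (mo b n) = lam κ n • mo b n :=
  RR_mo_of_be (be_rotS 1) κ b n

theorem coef_le {κ b : ℕ} (hb : b ≤ 2 * κ) (v : VP) (n : ℕ) : ‖v n • mo b n‖ ≤ ‖JJ b v‖ := by
  have := coef_bound zero_le_one (RR_rot_pow_le hb 1) (RR_rotS κ b) (norm_lam κ) (lam_inj κ) v n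
  rwa [one_mul] at this

theorem JJ_inj (b : ℕ) : Function.Injective (JJ b) := by
  rw [injective_iff_map_eq_zero]
  intro v hv
  ext n
  have h1 := coef_le (κ := b) (b := b) (by omega) v n
  rw [hv, norm_zero, norm_smul] at h1
  have h2 := norm_mo_pos b n
  have h3 : ‖v n‖ ≤ 0 := by
    by_contra h
    push Not at h
    have : 0 < ‖v n‖ * ‖mo b n‖ := mul_pos h h2
    linarith
  exact norm_le_zero_iff.1 h3

theorem JE_inj (b : ℕ) : Function.Injective (JE b) := fun _ _ h =>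
  JJ_inj b (congrArg Subtype.val h)

theorem JE_dense (b : ℕ) : DenseRange (JE b) := by
  rw [Metric.denseRange_iff]
  intro x r hr
  have hx : (x : C(Ds, ℂ)) ∈ closure (LinearMap.range (JJ b) : Set C(Ds, ℂ)) := x.2
  obtain ⟨y, ⟨v, rfl⟩, hv⟩ := Metric.mem_closure_iff.1 hx r hr
  exact ⟨v, hv⟩

instance (b : ℕ) : CompleteSpace (EB b) :=
  (Submodule.isClosed_topologicalClosure (LinearMap.range (JJ b))).completeSpace_coe

theorem JE_rot {g : SL} (hg : be g = 0) (κ b n : ℕ) :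
    Rr κ b g (JE b (Finsupp.single n 1)) =
      ((al g)⁻¹ ^ (2 * (n + κ))) • JE b (Finsupp.single n 1) := by
  apply Subtype.ext
  change RR κ b g (JJ b (Finsupp.single n 1)) =
    ((al g)⁻¹ ^ (2 * (n + κ))) • JJ b (Finsupp.single n 1)
  rw [JJ_single, one_smul, RR_mo_of_be hg]

/-- A vector of a finite dimensional invariant subspace is in the image of the module. -/
theorem fin_range {κ b : ℕ} (hb : b ≤ 2 * κ) {W : Submodule ℂ C(Ds, ℂ)} [FiniteDimensional ℂ W]
    (hW : ∀ y ∈ W, RR κ b (rotS 1) y ∈ W) {x : C(Ds, ℂ)} (hx : x ∈ W) (hxE : x ∈ EB b) :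
    ∃ v, JJ b v = x := by
  have h1 : x ∈ Submodule.span ℂ (Set.range (mo b)) := by
    refine fin_mem (T := RR κ b (rotS 1)) (T' := RR κ b (rotS (-1))) zero_le_one
      (RR_rot_pow_le hb 1) (RR_rot_pow_le hb (-1)) (fun y => ?_) (RR_rotS κ b) (norm_lam κ)
      (lam_inj κ) (W := W) hW hx ?_
    · have := DFunLike.congr_fun (map_mul (RR κ b) (rotS (-1)) (rotS 1)) y
      rw [rotS_neg_mul, map_one] at this
      exact this.symm
    · rw [span_mo]
      exact hxE
  rw [span_mo] at h1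
  exact h1

end Q4.Sub
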