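import Mathlib

/-!
# Harish-Chandra modules and `G`-continuous norms for `G = SL(2, ℝ) × ℝ`
-/

open Filter Topology
open scoped NNReal ENNReal

namespace Q4.Sub

/-- The real reductive group `G = SL(2, ℝ) × ℝ`. Its maximal compact subgroup is `K = SO(2)`. -/
abbrev GG : Type := Matrix.SpecialLinearGroup (Fin 2) ℝ × Multiplicative ℝ

/-- The data of an action of the Lie algebra `𝔤 = sl(2, ℝ) × ℝ` on `V`: the operators by which the
elements `h = [[1,0],[0,-1]]`, `e = [[0,1],[0,0]]`, `f = [[0,0],[1,0]]` of the first factor and the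
element `1` of the second factor act. -/
structure Ops (V : Type) : Type where
  h : V → V
  e : V → V
  f : V → V
  z : V → V

variable {V : Type} [AddCommGroup V] [Module ℂ V]

/-- The action of `(X, y) ∈ 𝔤`. -/
def Ops.act (D : Ops V) (X : Matrix (Fin 2) (Fin 2) ℝ) (y : ℝ) (v : V) : V :=
  ((X 0 0 : ℝ) : ℂ) • D.h v + ((X 0 1 : ℝ) : ℂ) • D.e v + ((X 1 0 : ℝ) : ℂ) • D.f v +
    (y : ℂ) • D.z v

/-- The operators define a complex linear representation of the Lie algebra `𝔤`. -/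
structure Ops.IsLieAction (D : Ops V) : Prop where
  lin_h : IsLinearMap ℂ D.h
  lin_e : IsLinearMap ℂ D.e
  lin_f : IsLinearMap ℂ D.f
  lin_z : IsLinearMap ℂ D.z
  he : ∀ v, D.h (D.e v) - D.e (D.h v) = (2 : ℂ) • D.e v
  hf : ∀ v, D.h (D.f v) - D.f (D.h v) = (-2 : ℂ) • D.f v
  ef : ∀ v, D.e (D.f v) - D.f (D.e v) = D.h v
  hz : ∀ v, D.h (D.z v) = D.z (D.h v)
  ez : ∀ v, D.e (D.z v) = D.z (D.e v)
  fz : ∀ v, D.f (D.z v) = D.z (D.f v)

/-- `v` lies in the `K`-isotypic component of the character `R_θ ↦ exp (i k θ)` of `K = SO(2)`: the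
generator `f - e = [[0,-1],[1,0]]` of `K` acts by `i k`. -/
def Ops.IsWeight (D : Ops V) (k : ℤ) (v : V) : Prop :=
  D.f v - D.e v = ((k : ℂ) * Complex.I) • v

/-- Harish-Chandra modules: `(𝔤, K)`-modules (the Lie algebra of `K` acts diagonally through
characters of the torus `K`) which are admissible and finitely generated. -/
structure Ops.IsHarishChandra (D : Ops V) : Prop extends D.IsLieAction where
  span : Submodule.span ℂ {v : V | ∃ k, D.IsWeight k v} = ⊤
  admissible : ∀ k, FiniteDimensional ℂ (Submodule.span ℂ {v : V | D.IsWeight k v})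
  fin_gen : ∃ S : Finset V, ∀ W : Submodule ℂ V, (∀ v ∈ S, v ∈ W) →
    (∀ v ∈ W, D.h v ∈ W ∧ D.e v ∈ W ∧ D.f v ∈ W ∧ D.z v ∈ W) → W = ⊤

/-- `V` is a `(𝔤, K)`-submodule of `U`, by means of the embedding `ι`. -/
structure IsSubmoduleOf {U : Type} [AddCommGroup U] [Module ℂ U] (D : Ops V) (D' : Ops U)
    (ι : V →ₗ[ℂ] U) : Prop where
  inj : Function.Injective ι
  h : ∀ v, ι (D.h v) = D'.h (ι v)
  e : ∀ v, ι (D.e v) = D'.e (ι v)
  f : ∀ v, ι (D.f v) = D'.f (ι v)
  z : ∀ v, ι (D.z v) = D'.z (ι v)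

/-- `(E, π, j)` is a continuous representation of `G` on a Banach space `E` in which `V` is embedded
as a dense subspace of (`K`-finite) smooth vectors with the given action of `𝔤`, such that the norm
of `E` restricts to `p`: the derivative at `0` of the orbit map of a vector of `V` along any
one-parameter subgroup of `G` with generator `(X, y)` is given by the action of `(X, y)` on `V`. -/
structure IsGlobalization (D : Ops V) (p : V → ℝ) {E : Type} [NormedAddCommGroup E]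
    [NormedSpace ℂ E] (π : GG →* (E →L[ℂ] E)) (j : V →ₗ[ℂ] E) : Prop where
  inj : Function.Injective j
  norm_eq : ∀ v, ‖j v‖ = p v
  dense : DenseRange j
  cont : ∀ x, Continuous fun g => π g x
  deriv : ∀ (X : Matrix (Fin 2) (Fin 2) ℝ) (y : ℝ) (γ : ℝ → GG),
    (∀ s t, γ (s + t) = γ s * γ t) → (∀ a b, HasDerivAt (fun t => (γ t).1 a b) (X a b) 0) →
      HasDerivAt (fun t => Multiplicative.toAdd (γ t).2) y 0 →
        ∀ v, HasDerivAt (fun t => π (γ t) (j v)) (j (D.act X y v)) 0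

/-- `T` is the Sobolev operator `D_s` (for the invariant form with `|λ|² = c k²` for the character
`λ = k` of `K`; the Killing form has `c = 1 / 8`): it is linear and acts on the isotypic component
of `k` by `(1 + c k²) ^ (s / 2)`. -/
def IsSobolev (D : Ops V) (c s : ℝ) (T : V →ₗ[ℂ] V) : Prop :=
  ∀ (k : ℤ) (v : V), D.IsWeight k v → T v = (((1 + c * (k : ℝ) ^ 2) ^ (s / 2) : ℝ) : ℂ) • v

/-- A weight on `G`: a positive, submultiplicative and locally bounded function. -/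
structure IsWeightFunction (w : GG → ℝ) : Prop where
  pos : ∀ g, 0 < w g
  submul : ∀ g h, w (g * h) ≤ w g * w h
  locallyBounded : ∀ g, ∃ C : ℝ, ∀ᶠ h in 𝓝 g, w h ≤ C

/-- The maximal compact subgroup `K = SO(2)` of `G = SL(2, ℝ) × ℝ`. -/
def KK : Set GG :=
  {k | (k.1 : Matrix (Fin 2) (Fin 2) ℝ) * (k.1 : Matrix (Fin 2) (Fin 2) ℝ).transpose = 1 ∧
    k.2 = 1}

/-- `x` is a `K`-finite vector of the representation `π`. -/
def IsKFinite {E : Type} [NormedAddCommGroup E] [NormedSpace ℂ E]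
    (π : GG →* (E →L[ℂ] E)) (x : E) : Prop :=
  ∃ W : Submodule ℂ E, FiniteDimensional ℂ W ∧ x ∈ W ∧ ∀ k ∈ KK, ∀ y ∈ W, π k y ∈ W

/-- `p` belongs to `Norm(V, w)`: the completion `E` of `(V, p)` carries a continuous representation
of `G` whose space of `K`-finite vectors is `V` (with its action of `𝔤` and `K`), and
`p (g • v) ≤ C w(g) p(v)` for some `C > 0` and all `g ∈ G`, `v ∈ V`. -/
def InNorm (D : Ops V) (w : GG → ℝ) (p : V → ℝ) : Prop :=
  ∃ (E : Type) (_ : NormedAddCommGroup E) (_ : NormedSpace ℂ E) (_ : CompleteSpace E)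
    (π : GG →* (E →L[ℂ] E)) (j : V →ₗ[ℂ] E), IsGlobalization D p π j ∧
      (∀ x, IsKFinite π x ↔ x ∈ Set.range j) ∧
      ∃ C : ℝ, 0 < C ∧ ∀ g v, ‖π g (j v)‖ ≤ C * w g * p v

/-- The relation `p ≲ q`. -/
def Dominated (p q : V → ℝ) : Prop := ∃ C : ℝ, 0 < C ∧ ∀ v, p v ≤ C * q v

/-- The infimum of all `s ≥ 0` with `p ≲ q_s`, where `q_s v = q (D_s v)`. -/
noncomputable def dArrow (D : Ops V) (c : ℝ) (p q : V → ℝ) : ℝ≥0∞ :=
  ⨅ s ∈ {s : ℝ≥0 | ∃ T : V →ₗ[ℂ] V, IsSobolev D c s T ∧ Dominated p fun v => q (T v)},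
    (s : ℝ≥0∞)

/-- The Sobolev gap `s(V, w)`: the supremum of the `dArrow p q` over all `p, q ∈ Norm(V, w)` (it is
attained at the maximal class and the minimal class). The number `c` is the normalization of the
invariant form. -/
noncomputable def gap (D : Ops V) (c : ℝ) (w : GG → ℝ) : ℝ≥0∞ :=
  ⨆ (p : V → ℝ) (_ : InNorm D w p) (q : V → ℝ) (_ : InNorm D w q), dArrow D c p q

/-- If `Norm(V, w)` has a minimal class `[p]` and a maximal class `[q]`, then the gap is the
infimum of all `s ≥ 0` with `q ≲ p_s`. -/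
theorem gap_eq (D : Ops V) (c : ℝ) (w : GG → ℝ) {p q : V → ℝ} (hp : InNorm D w p)
    (hq : InNorm D w q) (h : ∀ p', InNorm D w p' → Dominated p p' ∧ Dominated p' q) :
    gap D c w = dArrow D c q p := by
  apply le_antisymm
  · refine iSup₂_le fun p₁ h1 => iSup₂_le fun p₂ h2 => ?_
    refine le_iInf₂ fun s hs => ?_
    obtain ⟨T, hT, C, hC, hle⟩ := hs
    obtain ⟨C₁, hC₁, hle₁⟩ := (h p₁ h1).2
    obtain ⟨C₂, hC₂, hle₂⟩ := (h p₂ h2).1
    refine iInf₂_le s ⟨T, hT, C₁ * (C * C₂), by positivity, fun v => ?_⟩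
    calc p₁ v ≤ C₁ * q v := hle₁ v
      _ ≤ C₁ * (C * p (T v)) := mul_le_mul_of_nonneg_left (hle v) hC₁.le
      _ ≤ C₁ * (C * (C₂ * p₂ (T v))) :=
        mul_le_mul_of_nonneg_left (mul_le_mul_of_nonneg_left (hle₂ _) hC.le) hC₁.le
      _ = C₁ * (C * C₂) * p₂ (T v) := by ring
  · exact le_iSup₂_of_le q hq (le_iSup₂_of_le p hp le_rfl)

end Q4.Sub
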