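import Pool.Agent.Q4.Sub.Mod
import Pool.Agent.Q4.Lip.Glob

/-!
# The action of `SL(2, ℝ)` on the continuous functions on the closed unit disc
-/

open Filter Topology ComplexConjugate

namespace Q4.Sub

open Q4.HC Q4.Lip

/-- The multiplier. -/
noncomputable def mlt (κ b : ℕ) (g : SL) (z : Ds) : ℂ :=
  (den g⁻¹ z * conj (den g⁻¹ z)) ^ b / den g⁻¹ z ^ (2 * κ)

theorem le_norm_den (g : SL) (z : Ds) : 1 ≤ sz g * ‖den g z‖ := by
  have h1 : ‖al g‖ - ‖be g‖ ≤ ‖den g z‖ := by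
    have h2 : conj (al g) = den g z - conj (be g) * z := by
      rw [den]
      ring
    have h3 : ‖al g‖ ≤ ‖den g z‖ + ‖be g‖ * ‖(z : ℂ)‖ := by
      calc ‖al g‖ = ‖conj (al g)‖ := (RCLike.norm_conj _).symm
        _ = ‖den g z - conj (be g) * z‖ := by rw [← h2]
        _ ≤ ‖den g z‖ + ‖conj (be g) * z‖ := norm_sub_le _ _
        _ = _ := by rw [norm_mul, RCLike.norm_conj]
    have h4 := norm_Ds z
    have h5 : ‖be g‖ * ‖(z : ℂ)‖ ≤ ‖be g‖ * 1 := mul_le_mul_of_nonneg_left h4 (norm_nonneg _)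
    linarith
  calc 1 = sz g * (‖al g‖ - ‖be g‖) := (sz_mul_sub g).symm
    _ ≤ _ := mul_le_mul_of_nonneg_left h1 (sz_pos g).le

theorem norm_mlt (κ b : ℕ) (g : SL) (z : Ds) :
    ‖mlt κ b g z‖ = ‖den g⁻¹ z‖ ^ (2 * b) / ‖den g⁻¹ z‖ ^ (2 * κ) := by
  rw [mlt, norm_div, norm_pow, norm_pow, norm_mul, RCLike.norm_conj, ← sq, ← pow_mul]

theorem norm_mlt_self (κ : ℕ) (g : SL) (z : Ds) : ‖mlt κ κ g z‖ = 1 := by
  have h1 : 0 < ‖den g⁻¹ z‖ := norm_pos_iff.2 (den_ne' g⁻¹ z)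
  rw [norm_mlt, div_self (by positivity)]

theorem norm_mlt_le {κ b : ℕ} (hb : b ≤ 2 * κ) (g : SL) (z : Ds) :
    ‖mlt κ b g z‖ ≤ sz g ^ (2 * κ) := by
  have h1 : 0 < ‖den g⁻¹ z‖ := norm_pos_iff.2 (den_ne' g⁻¹ z)
  have h2 := norm_den_le g⁻¹ z
  have h3 := le_norm_den g⁻¹ z
  rw [sz_inv] at h2 h3
  have h4 := one_le_sz g
  have h5 := sz_pos g
  rw [norm_mlt, div_le_iff₀ (by positivity)]
  rcases le_total b κ with hbκ | hbκ
  · obtain ⟨c, rfl⟩ := Nat.exists_eq_add_of_le hbκ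
    calc ‖den g⁻¹ z‖ ^ (2 * b) = ‖den g⁻¹ z‖ ^ (2 * b) * 1 := by ring
      _ ≤ ‖den g⁻¹ z‖ ^ (2 * b) * (sz g * ‖den g⁻¹ z‖) ^ (2 * c) := by
        gcongr
        exact one_le_pow₀ h3
      _ = sz g ^ (2 * c) * ‖den g⁻¹ z‖ ^ (2 * (b + c)) := by rw [mul_pow]; ring
      _ ≤ sz g ^ (2 * (b + c)) * ‖den g⁻¹ z‖ ^ (2 * (b + c)) := by
        gcongr
        omega
  · obtain ⟨c, rfl⟩ := Nat.exists_eq_add_of_le hbκ
    calc ‖den g⁻¹ z‖ ^ (2 * (κ + c)) = ‖den g⁻¹ z‖ ^ (2 * c) * ‖den g⁻¹ z‖ ^ (2 * κ) := by ring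
      _ ≤ sz g ^ (2 * c) * ‖den g⁻¹ z‖ ^ (2 * κ) := by gcongr
      _ ≤ sz g ^ (2 * κ) * ‖den g⁻¹ z‖ ^ (2 * κ) := by
        gcongr
        omega

theorem mlt_mul (κ b : ℕ) (g h : SL) (z : Ds) :
    mlt κ b (g * h) z = mlt κ b g z * mlt κ b h (dmob g⁻¹ z) := by
  rw [mlt, mlt, mlt, mul_inv_rev, den_mul, map_mul, div_mul_div_comm]
  congr 1
  · rw [← mul_pow]
    congr 1
    ring
  · rw [← mul_pow]
    congr 1
    ring

theorem mlt_one (κ b : ℕ) (z : Ds) : mlt κ b 1 z = 1 := by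
  rw [mlt, inv_one, den_one]
  simp

theorem continuous_mlt (κ b : ℕ) : Continuous fun p : SL × Ds => mlt κ b p.1 p.2 := by
  have h1 : Continuous fun p : SL × Ds => (p.1⁻¹, p.2) := (continuous_fst.inv).prodMk continuous_snd
  have h2 : Continuous fun p : SL × Ds => den p.1⁻¹ p.2 :=
    Continuous.comp (g := fun p : SL × Ds => den p.1 p.2) (f := fun p : SL × Ds => (p.1⁻¹, p.2))
      continuous_den h1
  exact ((h2.mul (Complex.continuous_conj.comp h2)).pow _).div (h2.pow _) fun p =>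
    pow_ne_zero _ (den_ne' p.1⁻¹ p.2)

theorem continuous_mlt_right (κ b : ℕ) (g : SL) : Continuous (mlt κ b g) :=
  Continuous.comp (g := fun p : SL × Ds => mlt κ b p.1 p.2) (f := fun z : Ds => (g, z))
    (continuous_mlt κ b) (continuous_pair g)

/-- The function `R(g) F`. -/
noncomputable def rfun (κ b : ℕ) (g : SL) (F : C(Ds, ℂ)) : C(Ds, ℂ) :=
  (⟨mlt κ b g, continuous_mlt_right κ b g⟩ : C(Ds, ℂ)) *
    F.comp ⟨dmob g⁻¹, continuous_dmob_right g⁻¹⟩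

theorem rfun_apply (κ b : ℕ) (g : SL) (F : C(Ds, ℂ)) (z : Ds) :
    rfun κ b g F z = mlt κ b g z * F (dmob g⁻¹ z) := rfl

theorem norm_rfun_le {κ b : ℕ} {g : SL} {M : ℝ} (hM0 : 0 ≤ M) (hM : ∀ z, ‖mlt κ b g z‖ ≤ M)
    (F : C(Ds, ℂ)) : ‖rfun κ b g F‖ ≤ M * ‖F‖ := by
  refine (ContinuousMap.norm_le _ (by positivity)).2 fun z => ?_
  rw [rfun_apply, norm_mul]
  exact mul_le_mul (hM z) (F.norm_coe_le_norm _) (norm_nonneg _) hM0

theorem mlt_bdd (κ b : ℕ) (g : SL) : ∃ M : ℝ, 0 ≤ M ∧ ∀ z, ‖mlt κ b g z‖ ≤ M :=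
  ⟨‖(⟨mlt κ b g, continuous_mlt_right κ b g⟩ : C(Ds, ℂ))‖, norm_nonneg _, fun z =>
    (⟨mlt κ b g, continuous_mlt_right κ b g⟩ : C(Ds, ℂ)).norm_coe_le_norm z⟩

/-- The representation of `SL(2, ℝ)` on the continuous functions on the closed disc. -/
noncomputable def RR (κ b : ℕ) : SL →* (C(Ds, ℂ) →L[ℂ] C(Ds, ℂ)) where
  toFun g := LinearMap.mkContinuous
    { toFun := rfun κ b g
      map_add' := fun F F' => by
        ext z
        change mlt κ b g z * (F (dmob g⁻¹ z) + F' (dmob g⁻¹ z)) = mlt κ b g z * F (dmob g⁻¹ z) +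
          mlt κ b g z * F' (dmob g⁻¹ z)
        ring
      map_smul' := fun c F => by
        ext z
        change mlt κ b g z * (c * F (dmob g⁻¹ z)) = c * (mlt κ b g z * F (dmob g⁻¹ z))
        ring } (mlt_bdd κ b g).choose
        (norm_rfun_le (mlt_bdd κ b g).choose_spec.1 (mlt_bdd κ b g).choose_spec.2)
  map_one' := by
    ext F z
    change mlt κ b 1 z * F (dmob 1⁻¹ z) = F z
    rw [mlt_one, inv_one, dmob_one, one_mul]
  map_mul' g h := by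
    ext F z
    change mlt κ b (g * h) z * F (dmob (g * h)⁻¹ z) =
      mlt κ b g z * (mlt κ b h (dmob g⁻¹ z) * F (dmob h⁻¹ (dmob g⁻¹ z)))
    rw [mlt_mul, mul_inv_rev, dmob_mul, mul_assoc]

theorem RR_apply (κ b : ℕ) (g : SL) (F : C(Ds, ℂ)) (z : Ds) :
    RR κ b g F z = mlt κ b g z * F (dmob g⁻¹ z) := rfl

theorem norm_RR_le {κ b : ℕ} (hb : b ≤ 2 * κ) (g : SL) (F : C(Ds, ℂ)) :
    ‖RR κ b g F‖ ≤ sz g ^ (2 * κ) * ‖F‖ :=
  norm_rfun_le (pow_nonneg (sz_pos g).le _) (norm_mlt_le hb g) F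

theorem norm_RR_self_le (κ : ℕ) (g : SL) (F : C(Ds, ℂ)) : ‖RR κ κ g F‖ ≤ ‖F‖ := by
  have := norm_rfun_le (κ := κ) (b := κ) (g := g) zero_le_one (fun z => (norm_mlt_self κ g z).le) F
  rwa [one_mul] at this

theorem continuous_RR (κ b : ℕ) (F : C(Ds, ℂ)) : Continuous fun g => RR κ b g F := by
  refine ContinuousMap.continuous_of_continuous_uncurry _ ?_
  have h1 : Continuous (F ∘ fun p : SL × Ds => dmob p.1⁻¹ p.2) :=
    Continuous.comp F.continuous continuous_dmob_inv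
  have h2 : Continuous fun p : SL × Ds => mlt κ b p.1 p.2 * F (dmob p.1⁻¹ p.2) :=
    (continuous_mlt κ b).mul h1
  exact h2

/-- The monomials. -/
noncomputable def mo (b n : ℕ) : C(Ds, ℂ) := oc ^ b * Zc ^ n

theorem mo_apply (b n : ℕ) (z : Ds) :
    mo b n z = (1 - (z : ℂ) * conj (z : ℂ)) ^ b * (z : ℂ) ^ n := rfl

theorem RR_mo (κ b n : ℕ) (g : SL) :
    RR κ b g (mo b n) = oc ^ b * (nu g ^ n * io g ^ (n + 2 * κ)) := by
  ext z
  change mlt κ b g z * mo b n (dmob g⁻¹ z) = (1 - (z : ℂ) * conj (z : ℂ)) ^ b *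
    (nu g z ^ n * io g z ^ (n + 2 * κ))
  have h1 := den_num g⁻¹ z
  have h2 := den_ne' g⁻¹ z
  rw [nu_apply, io_apply, mo_apply, dmob_coe, mlt, map_div₀]
  have h3 : conj (den g⁻¹ z) ≠ 0 := by
    rw [Ne, map_eq_zero]
    exact h2
  have h4 : (1 - num g⁻¹ z / den g⁻¹ z * (conj (num g⁻¹ z) / conj (den g⁻¹ z))) =
      (1 - (z : ℂ) * conj (z : ℂ)) / (den g⁻¹ z * conj (den g⁻¹ z)) := by
    rw [← h1]
    field_simp
  rw [h4, div_pow, div_pow]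
  have h5 : (den g⁻¹ z * conj (den g⁻¹ z)) ^ b ≠ 0 := pow_ne_zero _ (mul_ne_zero h2 h3)
  rw [inv_pow, pow_add (den g⁻¹ z) n (2 * κ)]
  field_simp

/-- The embeddings. -/
noncomputable def JJ (b : ℕ) : VP →ₗ[ℂ] C(Ds, ℂ) := Finsupp.linearCombination ℂ (mo b)

theorem JJ_single (b n : ℕ) (c : ℂ) : JJ b (Finsupp.single n c) = c • mo b n :=
  Finsupp.linearCombination_single ..

theorem JJ_hact (κ b : ℕ) (Y : Matrix (Fin 2) (Fin 2) ℝ) (n : ℕ) (c : ℂ) :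
    JJ b (hact κ Y (Finsupp.single n c)) = c • (oc ^ b *
      ((n : C(Ds, ℂ)) * Zc ^ (n - 1) * (algebraMap ℂ _ (conj (((Y 1 0 - Y 0 1 : ℝ) : ℂ) *
        Complex.I / 2)) * Zc -
        algebraMap ℂ _ ((Y 0 0 : ℂ) + ((Y 1 0 + Y 0 1 : ℝ) : ℂ) * Complex.I / 2)) *
          1 ^ (n + 2 * κ) +
      Zc ^ n * (((n + 2 * κ : ℕ) : C(Ds, ℂ)) * 1 ^ (n + 2 * κ - 1) *
        (-(algebraMap ℂ _ (((Y 1 0 - Y 0 1 : ℝ) : ℂ) * Complex.I / 2) -
        algebraMap ℂ _ (conj ((Y 0 0 : ℂ) + ((Y 1 0 + Y 0 1 : ℝ) : ℂ) * Complex.I / 2)) * Zc))))) := by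
  rw [hact_single, map_add, map_add, JJ_single, JJ_single, JJ_single]
  ext z
  change _ * (_ * (z : ℂ) ^ (n + 1)) + _ * (_ * (z : ℂ) ^ (n - 1)) + _ * (_ * (z : ℂ) ^ n) =
    c * ((1 - (z : ℂ) * conj (z : ℂ)) ^ b * ((n : ℂ) * (z : ℂ) ^ (n - 1) *
      (conj (((Y 1 0 - Y 0 1 : ℝ) : ℂ) * Complex.I / 2) * (z : ℂ) -
        ((Y 0 0 : ℂ) + ((Y 1 0 + Y 0 1 : ℝ) : ℂ) * Complex.I / 2)) * 1 ^ (n + 2 * κ) +
      (z : ℂ) ^ n * (((n + 2 * κ : ℕ) : ℂ) * 1 ^ (n + 2 * κ - 1) *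
        (-((((Y 1 0 - Y 0 1 : ℝ) : ℂ) * Complex.I / 2) -
        (conj ((Y 0 0 : ℂ) + ((Y 1 0 + Y 0 1 : ℝ) : ℂ) * Complex.I / 2)) * (z : ℂ))))))
  have e1 : (oc ^ b) z = (1 - (z : ℂ) * conj (z : ℂ)) ^ b := rfl
  rw [e1]
  simp only [map_add, map_mul, map_div₀, Complex.conj_ofReal, Complex.conj_I, map_ofNat, one_pow]
  rcases n with _ | n
  · push_cast
    ring
  · rw [Nat.add_sub_cancel]
    push_cast
    ring

variable {r : ℕ}

theorem hasDerivAt_RR {Y : Fin r → Matrix (Fin 2) (Fin 2) ℝ} {γ : ℝ → G r} (h : Curve Y γ)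
    (i : Fin r) (κ b : ℕ) (v : VP) :
    HasDerivAt (fun t => RR κ b (γ t i) (JJ b v)) (JJ b (hact κ (Y i) v)) 0 := by
  induction v using Finsupp.induction_linear with
  | zero =>
    simp only [map_zero]
    exact hasDerivAt_const _ _
  | add f g hf hg =>
    have h2 := hf.fun_add hg
    rw [← map_add (JJ b), ← map_add (hact κ (Y i))] at h2
    simp only [map_add] at h2 ⊢
    exact h2
  | single n c =>
    rw [JJ_hact]
    have h1 := (((hasDerivAt_nu h i).fun_pow n).fun_mul ((hasDerivAt_io h i).fun_pow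
      (n + 2 * κ))).const_mul (oc ^ b)
    rw [h.one, Pi.one_apply, io_one, nu_one] at h1
    have h2 := h1.const_smul c
    refine h2.congr_of_eventuallyEq (Eventually.of_forall fun t => ?_)
    simp only [JJ_single, map_smul, Pi.smul_apply, RR_mo]

end Q4.Sub
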