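import Pool.Agent.Q4.Sub.Arb

/-!
# The estimates for an arbitrary norm on the extension
-/

open Filter Topology ComplexConjugate

namespace Q4.Sub

open Q4.HC Q4.Lip

theorem choose_ge {κ : ℕ} (hκ : 0 < κ) (n : ℕ) : ((n : ℝ) + 1) ^ (2 * κ - 1) ≤
    ((2 * κ - 1).factorial : ℝ) * ((n + 2 * κ - 1).choose n : ℕ) := by
  have h1 := Nat.pow_le_choose (α := ℝ) (2 * κ - 1) (n + 2 * κ - 1)
  have e1 : n + 2 * κ - 1 + 1 - (2 * κ - 1) = n + 1 := by omega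
  have e2 : (n + 2 * κ - 1).choose (2 * κ - 1) = (n + 2 * κ - 1).choose n := by
    rw [← Nat.choose_symm (by omega : n ≤ n + 2 * κ - 1)]
    congr 1
    omega
  rw [e1, e2, div_le_iff₀ (by positivity)] at h1
  push_cast at h1
  linarith

theorem norm_pow_tanh {t : ℝ} (ht : 0 < t) : 0 < Real.sinh t ∧ 0 < Real.cosh t :=
  ⟨Real.sinh_pos_iff.2 ht, Real.cosh_pos t⟩

/-- The lower bound for the first matrix coefficient. -/
theorem Sys.zero_low {κ n : ℕ} {c₀ : ℂ} {φ : ℕ → ℝ → ℂ} (h : Sys κ n c₀ φ) (hκ : 0 < κ) :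
    ∃ t : ℝ, 0 < t ∧ Real.cosh t ^ 2 = (n : ℝ) + 2 ∧
      ‖c₀‖ * ((n : ℝ) + 1) ^ (2 * κ - 1) ≤
        2 * ((2 * κ - 1).factorial : ℝ) * ((n : ℝ) + 2) ^ κ * ‖φ 0 t‖ := by
  obtain ⟨t, ht, hc, hx⟩ := exists_time n
  refine ⟨t, ht, hc, ?_⟩
  have h1 := congrArg norm (h.zero_eq hκ t ht)
  obtain ⟨hs0, hc0⟩ := norm_pow_tanh ht
  rw [norm_mul, norm_mul, norm_mul, norm_pow, norm_pow, Complex.norm_real, Complex.norm_real,
    Real.norm_of_nonneg hs0.le, Real.norm_of_nonneg hc0.le, Complex.norm_natCast, pow_add,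
    pow_mul (Real.cosh t) 2 κ, hc] at h1
  have hB := choose_ge hκ n
  set B : ℝ := (((n + 2 * κ - 1).choose n : ℕ) : ℝ) with hBdef
  have hcn : 0 < Real.cosh t ^ n := by positivity
  have h2 : Real.cosh t ^ n / 2 ≤ Real.sinh t ^ n := by
    rw [div_pow, le_div_iff₀ hcn] at hx
    linarith
  have hB0 : 0 ≤ B := by positivity
  have h3 : ‖c₀‖ * B * (Real.cosh t ^ n / 2) ≤ Real.cosh t ^ n * (((n : ℝ) + 2) ^ κ * ‖φ 0 t‖) := by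
    calc ‖c₀‖ * B * (Real.cosh t ^ n / 2) ≤ ‖c₀‖ * B * Real.sinh t ^ n := by gcongr
      _ = ‖φ 0 t‖ * (Real.cosh t ^ n * ((n : ℝ) + 2) ^ κ) := h1.symm
      _ = _ := by ring
  have h4 : ‖c₀‖ * B ≤ 2 * (((n : ℝ) + 2) ^ κ * ‖φ 0 t‖) := by
    have h5 : Real.cosh t ^ n * (‖c₀‖ * B) ≤ Real.cosh t ^ n * (2 * (((n : ℝ) + 2) ^ κ * ‖φ 0 t‖)) := by
      linarith
    exact le_of_mul_le_mul_left h5 hcn
  calc ‖c₀‖ * ((n : ℝ) + 1) ^ (2 * κ - 1) ≤ ‖c₀‖ * (((2 * κ - 1).factorial : ℝ) * B) := by gcongr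
    _ = ((2 * κ - 1).factorial : ℝ) * (‖c₀‖ * B) := by ring
    _ ≤ ((2 * κ - 1).factorial : ℝ) * (2 * (((n : ℝ) + 2) ^ κ * ‖φ 0 t‖)) := by gcongr
    _ = _ := by ring

/-- The lower bound for the matrix coefficients of the lowest weight vector. -/
theorem Sys.all_low {κ : ℕ} {c₀ : ℂ} {φ : ℕ → ℝ → ℂ} (h : Sys κ 0 c₀ φ) (hκ : 0 < κ) (m : ℕ) :
    ∃ t : ℝ, 0 < t ∧ Real.cosh t ^ 2 = (m : ℝ) + 2 ∧
      ‖c₀‖ ≤ 2 * ((m : ℝ) + 2) ^ κ * ‖φ m t‖ := by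
  obtain ⟨t, ht, hc, hx⟩ := exists_time m
  refine ⟨t, ht, hc, ?_⟩
  have h1 := congrArg norm (h.all_eq hκ t ht m).1
  obtain ⟨hs0, hc0⟩ := norm_pow_tanh ht
  rw [norm_mul, norm_mul, norm_pow, norm_pow, norm_neg, Complex.norm_real, Complex.norm_real,
    Real.norm_of_nonneg hs0.le, Real.norm_of_nonneg hc0.le, pow_add,
    pow_mul (Real.cosh t) 2 κ, hc] at h1
  have hcn : 0 < Real.cosh t ^ m := by positivity
  have h2 : Real.cosh t ^ m / 2 ≤ Real.sinh t ^ m := by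
    rw [div_pow, le_div_iff₀ hcn] at hx
    linarith
  have h3 : ‖c₀‖ * (Real.cosh t ^ m / 2) ≤ Real.cosh t ^ m * (((m : ℝ) + 2) ^ κ * ‖φ m t‖) := by
    calc ‖c₀‖ * (Real.cosh t ^ m / 2) ≤ ‖c₀‖ * Real.sinh t ^ m := by gcongr
      _ = ‖φ m t‖ * (Real.cosh t ^ m * ((m : ℝ) + 2) ^ κ) := h1.symm
      _ = _ := by ring
  have h5 : Real.cosh t ^ m * ‖c₀‖ ≤ Real.cosh t ^ m * (2 * ((m : ℝ) + 2) ^ κ * ‖φ m t‖) := by
    linarith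
  exact le_of_mul_le_mul_left h5 hcn

theorem sz_dg_pow {κ : ℕ} {t : ℝ} {m : ℕ} (ht : 0 < t) (hc : Real.cosh t ^ 2 = (m : ℝ) + 2) :
    sz (dg t) ^ (2 * κ) ≤ 4 ^ κ * ((m : ℝ) + 2) ^ κ := by
  have h1 : Real.exp t ≤ 2 * Real.cosh t := by
    rw [Real.cosh_eq]
    have := Real.exp_pos (-t)
    linarith
  rw [sz_dg ht.le]
  calc Real.exp t ^ (2 * κ) ≤ (2 * Real.cosh t) ^ (2 * κ) := by gcongr
    _ = 4 ^ κ * ((m : ℝ) + 2) ^ κ := by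
      rw [pow_mul, mul_pow 2 (Real.cosh t) 2, hc, mul_pow]
      norm_num

theorem fact_pos (κ : ℕ) : (0 : ℝ) < ((2 * κ - 1).factorial : ℝ) := by positivity

theorem add_two_pow_le (κ n : ℕ) : ((n : ℝ) + 2) ^ κ ≤ 2 ^ κ * ((n : ℝ) + 1) ^ κ := by
  rw [← mul_pow]
  have : (0 : ℝ) ≤ n := Nat.cast_nonneg n
  gcongr
  linarith

section

variable {E : Type} [NormedAddCommGroup E] [NormedSpace ℂ E] {κ : ℕ}
  {p : VW → ℝ} {π : GG →* (E →L[ℂ] E)} {j : VW →ₗ[ℂ] E} {C : ℝ}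

theorem ev_eq (a b : ℂ) (n : ℕ) : ev a b n = a • ev 1 0 n + b • ev 0 1 n := by
  refine Prod.ext ?_ ?_
  · change (Finsupp.single n a : VP) = a • Finsupp.single n 1 + b • Finsupp.single n 0
    rw [Finsupp.smul_single, Finsupp.single_zero, smul_zero, add_zero, smul_eq_mul, mul_one]
  · change (Finsupp.single n b : VP) = a • Finsupp.single n 0 + b • Finsupp.single n 1
    rw [Finsupp.single_zero, smul_zero, zero_add, Finsupp.smul_single, smul_eq_mul, mul_one]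

namespace Bd

variable (h : Bd κ p π j C)

include h

/-- A functional on an isotypic component that attains the norm. -/
theorem dual {a₀ b₀ : ℂ} (hab : a₀ ≠ 0 ∨ b₀ ≠ 0) (n : ℕ) : ∃ α β : ℂ, ∃ Λ : E →L[ℂ] ℂ,
    (∀ v : VW, Λ (j v) = v.1 n * α + v.2 n * β) ∧ (∀ x, ‖Λ x‖ ≤ C * ‖x‖) ∧
      a₀ * α + b₀ * β = (‖j (ev a₀ b₀ n)‖ : ℂ) := by
  have hpos := h.ev_pos hab n
  obtain ⟨ℓ, hℓ, hℓ'⟩ := exists_dual_vector ℂ (j (ev a₀ b₀ n)) hpos.ne'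
  have hlin : ∀ a b, a * ℓ (j (ev 1 0 n)) + b * ℓ (j (ev 0 1 n)) = ℓ (j (ev a b n)) := by
    intro a b
    rw [ev_eq a b n, map_add, map_smul, map_smul, map_add, map_smul, map_smul]
    rfl
  obtain ⟨Λ, h1, h2⟩ := h.functional n (α := ℓ (j (ev 1 0 n))) (β := ℓ (j (ev 0 1 n)))
    zero_le_one (fun a b => by
      rw [hlin]
      refine (ℓ.le_opNorm _).trans ?_
      rw [hℓ])
  refine ⟨_, _, Λ, h1, fun x => ?_, ?_⟩
  · have := h2 x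
    rwa [mul_one] at this
  · rw [hlin, hℓ']
    rfl

theorem up_x (hκ : 0 < κ) : ∃ K : ℝ, 0 < K ∧ ∀ n : ℕ,
    ‖j (ev 1 0 n)‖ * ((n : ℝ) + 1) ^ κ ≤ K * ((n : ℝ) + 1) := by
  have hC := h.pos
  have hy := h.ev_pos (a := 0) (b := 1) (Or.inr one_ne_zero) 0
  have hF := fact_pos κ
  set F : ℝ := ((2 * κ - 1).factorial : ℝ) with hFdef
  refine ⟨2 * F * 2 ^ κ * (3 * C ^ 2 * ‖j (ev 0 1 0)‖), by positivity, fun n => ?_⟩
  obtain ⟨α, β, Λ, hΛ, hbd, hval⟩ := h.dual (a₀ := 1) (b₀ := 0) (Or.inl one_ne_zero) n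
  obtain ⟨t, ht, hc, hlow⟩ := (h.sys hΛ 1 0).zero_low hκ
  rw [hval, Complex.norm_real, norm_norm] at hlow
  have h1 : ‖Λ (π (in1 (dg t)) (j (ev 1 0 0)))‖ ≤ C * (3 * C * ‖j (ev 0 1 0)‖) := by
    refine (hbd _).trans ?_
    have h2 := h.bound_b (dg t) (ev 0 1 0)
    have h3 : (((ev 0 1 0).2, 0) : VW) = ev 1 0 0 := by
      refine Prod.ext rfl ?_
      change (0 : VP) = Finsupp.single 0 0
      rw [Finsupp.single_zero]
    rw [h3] at h2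
    gcongr
  have h2 := add_two_pow_le κ n
  set q : ℝ := ‖j (ev 1 0 n)‖ with hq
  set N : ℝ := (n : ℝ) + 1 with hN
  have hN0 : 0 < N := by positivity
  have h4 : q * N ^ (2 * κ - 1) ≤ 2 * F * (2 ^ κ * N ^ κ) * (C * (3 * C * ‖j (ev 0 1 0)‖)) := by
    refine hlow.trans ?_
    gcongr
  obtain ⟨k, rfl⟩ : ∃ k, κ = k + 1 := ⟨κ - 1, by omega⟩
  have e1 : N ^ (2 * (k + 1) - 1) = N ^ (k + 1) * N ^ k := by
    rw [← pow_add]
    congr 1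
    omega
  have h5 : N ^ k * (q * N ^ (k + 1)) ≤
      N ^ k * (2 * F * 2 ^ (k + 1) * (3 * C ^ 2 * ‖j (ev 0 1 0)‖) * N) := by
    calc N ^ k * (q * N ^ (k + 1)) = q * N ^ (2 * (k + 1) - 1) := by rw [e1]; ring
      _ ≤ _ := h4
      _ = _ := by rw [pow_succ N k]; ring
  exact le_of_mul_le_mul_left h5 (by positivity)

theorem up_y (hκ : 0 < κ) : ∃ K : ℝ, 0 < K ∧ ∀ n : ℕ,
    ‖j (ev 0 1 n)‖ ≤ K * ((n : ℝ) + 1) := by
  have hC := h.pos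
  have hy := h.ev_pos (a := 0) (b := 1) (Or.inr one_ne_zero) 0
  have hF := fact_pos κ
  set F : ℝ := ((2 * κ - 1).factorial : ℝ) with hFdef
  refine ⟨2 * F * 2 ^ κ * (4 ^ κ * 2 ^ κ * (C ^ 2 * ‖j (ev 0 1 0)‖)), by positivity, fun n => ?_⟩
  obtain ⟨α, β, Λ, hΛ, hbd, hval⟩ := h.dual (a₀ := 0) (b₀ := 1) (Or.inr one_ne_zero) n
  obtain ⟨t, ht, hc, hlow⟩ := (h.sys hΛ 0 1).zero_low hκ
  rw [hval, Complex.norm_real, norm_norm] at hlow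
  have h2 := add_two_pow_le κ n
  have h1 : ‖Λ (π (in1 (dg t)) (j (ev 0 1 0)))‖ ≤
      C * (C * (4 ^ κ * (2 ^ κ * ((n : ℝ) + 1) ^ κ)) * ‖j (ev 0 1 0)‖) := by
    refine (hbd _).trans ?_
    have h2 := h.bound_a (dg t) (j (ev 0 1 0))
    have h3 := sz_dg_pow (κ := κ) ht hc
    gcongr
    refine h2.trans ?_
    gcongr
    refine h3.trans ?_
    gcongr
  set q : ℝ := ‖j (ev 0 1 n)‖ with hq
  set N : ℝ := (n : ℝ) + 1 with hN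
  have hN0 : 0 < N := by positivity
  have h4 : q * N ^ (2 * κ - 1) ≤ 2 * F * (2 ^ κ * N ^ κ) *
      (C * (C * (4 ^ κ * (2 ^ κ * N ^ κ)) * ‖j (ev 0 1 0)‖)) := by
    refine hlow.trans ?_
    gcongr
  have e1 : N ^ κ * N ^ κ = N ^ (2 * κ - 1) * N := by
    rw [← pow_add, ← pow_succ]
    congr 1
    omega
  have h5 : N ^ (2 * κ - 1) * q ≤ N ^ (2 * κ - 1) *
      (2 * F * 2 ^ κ * (4 ^ κ * 2 ^ κ * (C ^ 2 * ‖j (ev 0 1 0)‖)) * N) := by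
    calc N ^ (2 * κ - 1) * q = q * N ^ (2 * κ - 1) := by ring
      _ ≤ _ := h4
      _ = (2 * F * 2 ^ κ * (4 ^ κ * 2 ^ κ * (C ^ 2 * ‖j (ev 0 1 0)‖))) * (N ^ κ * N ^ κ) := by ring
      _ = _ := by rw [e1]; ring
  exact le_of_mul_le_mul_left h5 (by positivity)

theorem low_b (hκ : 0 < κ) : ∃ K : ℝ, 0 < K ∧ ∀ (n : ℕ) (a b : ℂ),
    ‖b‖ ≤ K * ((n : ℝ) + 1) ^ κ * ‖j (ev a b n)‖ := by
  have hC := h.pos
  have hx := h.ev_pos (a := 1) (b := 0) (Or.inl one_ne_zero) 0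
  refine ⟨2 * 2 ^ κ * (3 * C ^ 2) / ‖j (ev 1 0 0)‖, by positivity, fun n a b => ?_⟩
  obtain ⟨α, β, Λ, hΛ, hbd, hval⟩ := h.dual (a₀ := 1) (b₀ := 0) (Or.inl one_ne_zero) 0
  obtain ⟨t, ht, hc, hlow⟩ := (h.sys hΛ 1 0).all_low hκ n
  rw [hval, Complex.norm_real, norm_norm] at hlow
  have h2 := add_two_pow_le κ n
  have h1 : ‖b‖ * ‖Λ (π (in1 (dg t)) (j (ev 1 0 n)))‖ ≤ C * (3 * C * ‖j (ev a b n)‖) := by
    have h3 := h.bound_b (dg t) (ev a b n)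
    have h4 : (((ev a b n).2, 0) : VW) = b • ev 1 0 n := by
      refine Prod.ext ?_ ?_
      · change (Finsupp.single n b : VP) = b • Finsupp.single n 1
        rw [Finsupp.smul_single, smul_eq_mul, mul_one]
      · change (0 : VP) = b • Finsupp.single n 0
        rw [Finsupp.single_zero, smul_zero]
    rw [h4, map_smul, map_smul, norm_smul] at h3
    calc ‖b‖ * ‖Λ (π (in1 (dg t)) (j (ev 1 0 n)))‖
        ≤ ‖b‖ * (C * ‖π (in1 (dg t)) (j (ev 1 0 n))‖) := by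
          gcongr
          exact hbd _
      _ = C * (‖b‖ * ‖π (in1 (dg t)) (j (ev 1 0 n))‖) := by ring
      _ ≤ _ := by gcongr
  set N : ℝ := (n : ℝ) + 1 with hN
  have hN0 : 0 < N := by positivity
  have h4 : ‖b‖ * ‖j (ev 1 0 0)‖ ≤ 2 * (2 ^ κ * N ^ κ) * (C * (3 * C * ‖j (ev a b n)‖)) := by
    calc ‖b‖ * ‖j (ev 1 0 0)‖
        ≤ ‖b‖ * (2 * ((n : ℝ) + 2) ^ κ * ‖Λ (π (in1 (dg t)) (j (ev 1 0 n)))‖) := by gcongr
      _ = 2 * ((n : ℝ) + 2) ^ κ * (‖b‖ * ‖Λ (π (in1 (dg t)) (j (ev 1 0 n)))‖) := by ring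
      _ ≤ _ := by gcongr
  rw [div_mul_eq_mul_div, div_mul_eq_mul_div, le_div_iff₀ hx]
  refine h4.trans (le_of_eq ?_)
  ring

theorem low_a (hκ : 0 < κ) : ∃ K : ℝ, 0 < K ∧ ∀ (n : ℕ) (a b : ℂ),
    ‖a‖ ≤ K * ((n : ℝ) + 1) ^ (2 * κ) * ‖j (ev a b n)‖ := by
  have hC := h.pos
  -- the norm on the lowest isotypic component
  let L : (ℂ × ℂ) →ₗ[ℂ] E := (LinearMap.toSpanSingleton ℂ E (j (ev 1 0 0))).coprod
    (LinearMap.toSpanSingleton ℂ E (j (ev 0 1 0)))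
  have hL : ∀ a b : ℂ, L (a, b) = j (ev a b 0) := by
    intro a b
    change a • j (ev 1 0 0) + b • j (ev 0 1 0) = _
    rw [ev_eq a b 0, map_add, map_smul, map_smul]
  have hker : LinearMap.ker L = ⊥ := by
    rw [LinearMap.ker_eq_bot']
    rintro ⟨a, b⟩ hab
    rw [hL] at hab
    by_contra hne
    have h1 : a ≠ 0 ∨ b ≠ 0 := by
      by_contra h2
      push Not at h2
      exact hne (Prod.ext h2.1 h2.2)
    have h2 := h.ev_pos h1 0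
    rw [hab, norm_zero] at h2
    exact lt_irrefl _ h2
  obtain ⟨M, hM0, hM⟩ := L.exists_antilipschitzWith hker
  have hM' : ∀ a b : ℂ, ‖a * 1 + b * 0‖ ≤ (M : ℝ) * ‖j (ev a b 0)‖ := by
    intro a b
    rw [mul_one, mul_zero, add_zero, ← hL]
    have h1 := hM.le_mul_dist (a, b) 0
    rw [dist_zero_right, map_zero, dist_zero_right] at h1
    exact (norm_fst_le (a, b)).trans h1
  obtain ⟨Λ, hΛ, hbd⟩ := h.functional 0 M.2 hM'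
  have hM0' : (0 : ℝ) < M := hM0
  refine ⟨2 * 2 ^ κ * (C * M * (C * (4 ^ κ * 2 ^ κ))), by positivity, fun n a b => ?_⟩
  obtain ⟨t, ht, hc, hlow⟩ := (h.sys hΛ a b).all_low hκ n
  rw [mul_one, mul_zero, add_zero] at hlow
  have h2 := add_two_pow_le κ n
  set N : ℝ := (n : ℝ) + 1 with hN
  have hN0 : 0 < N := by positivity
  have h1 : ‖Λ (π (in1 (dg t)) (j (ev a b n)))‖ ≤
      C * M * (C * (4 ^ κ * (2 ^ κ * N ^ κ)) * ‖j (ev a b n)‖) := by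
    refine (hbd _).trans ?_
    have h2 := h.bound_a (dg t) (j (ev a b n))
    have h3 := sz_dg_pow (κ := κ) ht hc
    refine mul_le_mul_of_nonneg_left ?_ (by positivity)
    refine h2.trans ?_
    gcongr
    refine h3.trans ?_
    gcongr
  calc ‖a‖ ≤ 2 * ((n : ℝ) + 2) ^ κ * ‖Λ (π (in1 (dg t)) (j (ev a b n)))‖ := hlow
    _ ≤ 2 * (2 ^ κ * N ^ κ) * (C * M * (C * (4 ^ κ * (2 ^ κ * N ^ κ)) * ‖j (ev a b n)‖)) := by
      gcongr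
    _ = 2 * 2 ^ κ * (C * M * (C * (4 ^ κ * 2 ^ κ))) * N ^ (2 * κ) * ‖j (ev a b n)‖ := by
      rw [two_mul κ, pow_add]
      ring

/-- All estimates. -/
theorem main (hκ : 0 < κ) : ∃ K : ℝ, 0 < K ∧ ∀ n : ℕ,
    ‖j (ev 1 0 n)‖ * ((n : ℝ) + 1) ^ κ ≤ K * ((n : ℝ) + 1) ∧
    ‖j (ev 0 1 n)‖ ≤ K * ((n : ℝ) + 1) ∧ ∀ a b : ℂ,
    ‖a‖ ≤ K * ((n : ℝ) + 1) ^ (2 * κ) * ‖j (ev a b n)‖ ∧
    ‖b‖ ≤ K * ((n : ℝ) + 1) ^ κ * ‖j (ev a b n)‖ := by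
  obtain ⟨K₁, p1, h1⟩ := h.up_x hκ
  obtain ⟨K₂, p2, h2⟩ := h.up_y hκ
  obtain ⟨K₃, p3, h3⟩ := h.low_a hκ
  obtain ⟨K₄, p4, h4⟩ := h.low_b hκ
  refine ⟨K₁ + K₂ + K₃ + K₄, by positivity, fun n => ⟨(h1 n).trans ?_, (h2 n).trans ?_,
    fun a b => ⟨(h3 n a b).trans ?_, (h4 n a b).trans ?_⟩⟩⟩
  · gcongr
    linarith
  · gcongr
    linarith
  · gcongr
    linarith
  · gcongr
    linarith

end Bd

end

end Q4.Sub
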