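import Pool.Agent.Q4.Sub.Clos

/-!
# The globalizations
-/

open Filter Topology ComplexConjugate

namespace Q4.Sub

open Q4.HC Q4.Lip

/-! ### The weights -/

/-- The weights. -/
noncomputable def wk (κ : ℕ) (g : GG) : ℝ :=
  max (sz g.1 ^ (2 * κ)) (1 + |Multiplicative.toAdd g.2|)

theorem one_le_wk (κ : ℕ) (g : GG) : 1 ≤ wk κ g := by
  refine le_trans ?_ (le_max_right _ _)
  have := abs_nonneg (Multiplicative.toAdd g.2)
  linarith

theorem wk_weight (κ : ℕ) : IsWeightFunction (wk κ) where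
  pos g := lt_of_lt_of_le one_pos (one_le_wk κ g)
  submul g h := by
    have h0 := sz_mul g.1 h.1
    have a1 := sz_pos (g.1 * h.1)
    have a2 := sz_pos g.1
    have a3 := sz_pos h.1
    refine max_le ?_ ?_
    · change sz (g.1 * h.1) ^ (2 * κ) ≤ _
      calc sz (g.1 * h.1) ^ (2 * κ) ≤ (sz g.1 * sz h.1) ^ (2 * κ) := by gcongr
        _ = sz g.1 ^ (2 * κ) * sz h.1 ^ (2 * κ) := mul_pow _ _ _
        _ ≤ wk κ g * wk κ h := by
          unfold wk
          gcongr
          · exact le_max_left _ _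
          · exact le_max_left _ _
    · change 1 + |Multiplicative.toAdd g.2 + Multiplicative.toAdd h.2| ≤ _
      have h1 := abs_add_le (Multiplicative.toAdd g.2) (Multiplicative.toAdd h.2)
      have h2 := abs_nonneg (Multiplicative.toAdd g.2)
      have h3 := abs_nonneg (Multiplicative.toAdd h.2)
      calc 1 + |Multiplicative.toAdd g.2 + Multiplicative.toAdd h.2|
          ≤ (1 + |Multiplicative.toAdd g.2|) * (1 + |Multiplicative.toAdd h.2|) := by nlinarith
        _ ≤ wk κ g * wk κ h := by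
          unfold wk
          gcongr
          · exact le_max_right _ _
          · exact le_max_right _ _
  locallyBounded g := by
    refine ⟨wk κ g + 1, ?_⟩
    have e0 : Continuous fun g : GG => sz g.1 :=
      Continuous.comp (g := sz) (f := fun g : GG => g.1) continuous_sz continuous_fst
    have e1 : Continuous fun g : GG => |Multiplicative.toAdd g.2| :=
      (continuous_toAdd.comp continuous_snd).abs
    have h1 : Continuous (wk κ) := (e0.pow _).max (continuous_const.add e1)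
    filter_upwards [h1.continuousAt.eventually_lt continuousAt_const (lt_add_one (wk κ g))] with h hh
    exact hh.le

/-! ### The representations -/

/-- The representations that globalize the module `DV κ`. -/
noncomputable def prV (κ b : ℕ) : GG →* (EB b →L[ℂ] EB b) :=
  (Rr κ b).comp (MonoidHom.fst SL (Multiplicative ℝ))

theorem prV_apply (κ b : ℕ) (g : GG) : prV κ b g = Rr κ b g.1 := rfl

/-- The Banach space. -/
abbrev EE (κ : ℕ) : Type := EB κ × EB κ

/-- The representation that globalizes the module `DU κ`. -/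
noncomputable def prU (κ : ℕ) : GG →* (EE κ →L[ℂ] EE κ) where
  toFun g := ((Rr κ κ g.1).comp (ContinuousLinearMap.fst ℂ (EB κ) (EB κ)) +
    ((Multiplicative.toAdd g.2 : ℝ) : ℂ) •
      (Rr κ κ g.1).comp (ContinuousLinearMap.snd ℂ (EB κ) (EB κ))).prod
    ((Rr κ κ g.1).comp (ContinuousLinearMap.snd ℂ (EB κ) (EB κ)))
  map_one' := by
    refine ContinuousLinearMap.ext fun x => ?_
    change (Rr κ κ 1 x.1 + ((0 : ℝ) : ℂ) • Rr κ κ 1 x.2, Rr κ κ 1 x.2) = x
    rw [map_one]
    simp
  map_mul' g h := by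
    refine ContinuousLinearMap.ext fun x => ?_
    change (Rr κ κ (g.1 * h.1) x.1 + ((Multiplicative.toAdd g.2 + Multiplicative.toAdd h.2 : ℝ) : ℂ) •
      Rr κ κ (g.1 * h.1) x.2, Rr κ κ (g.1 * h.1) x.2) =
      (Rr κ κ g.1 (Rr κ κ h.1 x.1 + ((Multiplicative.toAdd h.2 : ℝ) : ℂ) • Rr κ κ h.1 x.2) +
        ((Multiplicative.toAdd g.2 : ℝ) : ℂ) • Rr κ κ g.1 (Rr κ κ h.1 x.2),
        Rr κ κ g.1 (Rr κ κ h.1 x.2))
    have e : ∀ y, Rr κ κ (g.1 * h.1) y = Rr κ κ g.1 (Rr κ κ h.1 y) := fun y => by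
      rw [map_mul]
      rfl
    rw [e, e, map_add, map_smul]
    push_cast
    refine Prod.ext ?_ rfl
    simp only
    module

theorem prU_apply (κ : ℕ) (g : GG) (x : EE κ) : prU κ g x =
    (Rr κ κ g.1 x.1 + ((Multiplicative.toAdd g.2 : ℝ) : ℂ) • Rr κ κ g.1 x.2, Rr κ κ g.1 x.2) := rfl

theorem norm_prV_le {κ b : ℕ} (hb : b ≤ 2 * κ) (g : GG) (x : EB b) :
    ‖prV κ b g x‖ ≤ wk κ g * ‖x‖ :=
  (norm_Rr_le hb g.1 x).trans (mul_le_mul_of_nonneg_right (le_max_left _ _) (norm_nonneg _))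

theorem norm_prU_le (κ : ℕ) (g : GG) (x : EE κ) : ‖prU κ g x‖ ≤ wk κ g * ‖x‖ := by
  have hx1 : ‖x.1‖ ≤ ‖x‖ := norm_fst_le x
  have hx2 : ‖x.2‖ ≤ ‖x‖ := norm_snd_le x
  have h1 := norm_Rr_self_le κ g.1 x.1
  have h2 := norm_Rr_self_le κ g.1 x.2
  have h3 := abs_nonneg (Multiplicative.toAdd g.2)
  refine le_trans ?_ (mul_le_mul_of_nonneg_right (le_max_right _ _) (norm_nonneg _))
  rw [prU_apply, Prod.norm_def]
  refine max_le ?_ ?_
  · refine (norm_add_le _ _).trans ?_
    rw [norm_smul, Complex.norm_real, Real.norm_eq_abs]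
    have h4 : |Multiplicative.toAdd g.2| * ‖Rr κ κ g.1 x.2‖ ≤ |Multiplicative.toAdd g.2| * ‖x‖ :=
      mul_le_mul_of_nonneg_left (h2.trans hx2) h3
    linarith
  · have h5 : 0 ≤ |Multiplicative.toAdd g.2| * ‖x‖ := by positivity
    have h6 := h2.trans hx2
    change ‖Rr κ κ g.1 x.2‖ ≤ _
    linarith

theorem continuous_prV (κ b : ℕ) (x : EB b) : Continuous fun g => prV κ b g x :=
  Continuous.comp (g := fun g : SL => Rr κ b g x) (f := fun g : GG => g.1) (continuous_Rr κ b x)
    continuous_fst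

theorem continuous_prU (κ : ℕ) (x : EE κ) : Continuous fun g => prU κ g x := by
  have h2 : ∀ y : EB κ, Continuous fun g : GG => Rr κ κ g.1 y := fun y => continuous_prV κ κ y
  have h3 : Continuous fun g : GG => ((Multiplicative.toAdd g.2 : ℝ) : ℂ) :=
    Complex.continuous_ofReal.comp (continuous_toAdd.comp continuous_snd)
  exact ((h2 x.1).add (h3.smul (h2 x.2))).prodMk (h2 x.2)

/-- The curve in the first factor. -/
theorem curve_of {X : Matrix (Fin 2) (Fin 2) ℝ} {γ : ℝ → GG}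
    (h1 : ∀ s t, γ (s + t) = γ s * γ t)
    (h2 : ∀ a b, HasDerivAt (fun t => (γ t).1 a b) (X a b) 0) :
    Curve (r := 1) (fun _ => X) (fun t _ => (γ t).1) :=
  Curve.of_hom (fun s t => by rw [h1]; rfl) fun _ a b => h2 a b

theorem hasDerivAt_prV {X : Matrix (Fin 2) (Fin 2) ℝ} {γ : ℝ → GG}
    (h1 : ∀ s t, γ (s + t) = γ s * γ t)
    (h2 : ∀ a b, HasDerivAt (fun t => (γ t).1 a b) (X a b) 0) (κ b : ℕ) (v : VP) :
    HasDerivAt (fun t => Rr κ b (γ t).1 (JE b v)) (JE b (hact κ X v)) 0 :=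
  hasDerivAt_subtype (hasDerivAt_RR (curve_of h1 h2) 0 κ b v)

theorem curve_one {γ : ℝ → GG} (h1 : ∀ s t, γ (s + t) = γ s * γ t) : γ 0 = 1 := by
  have := h1 0 0
  rw [add_zero] at this
  exact (mul_eq_left.1 this.symm)

/-- The embedding. -/
noncomputable def jU (κ : ℕ) : VW →ₗ[ℂ] EE κ := LinearMap.prodMap (JE κ) (JE κ)

theorem jU_apply (κ : ℕ) (u : VW) : jU κ u = (JE κ u.1, JE κ u.2) := rfl

/-- The norms on `V`. -/
noncomputable def pV (b : ℕ) (u : VP) : ℝ := ‖JE b u‖

/-- The norm on `U`. -/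
noncomputable def pU (κ : ℕ) (u : VW) : ℝ := ‖jU κ u‖

theorem globV (κ b : ℕ) : IsGlobalization (DV κ) (pV b) (prV κ b) (JE b) where
  inj := JE_inj b
  norm_eq _ := rfl
  dense := JE_dense b
  cont := continuous_prV κ b
  deriv X y γ h1 h2 _ v := by
    rw [DV_act]
    exact hasDerivAt_prV h1 h2 κ b v

theorem globU (κ : ℕ) : IsGlobalization (DU κ) (pU κ) (prU κ) (jU κ) where
  inj := fun _ _ h => Prod.ext (JE_inj κ (congrArg Prod.fst h)) (JE_inj κ (congrArg Prod.snd h))
  norm_eq _ := rfl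
  dense := (JE_dense κ).prodMap (JE_dense κ)
  cont := continuous_prU κ
  deriv X y γ h1 h2 h3 v := by
    have e1 := hasDerivAt_prV h1 h2 κ κ v.1
    have e2 := hasDerivAt_prV h1 h2 κ κ v.2
    have e3 : HasDerivAt (fun t => ((Multiplicative.toAdd (γ t).2 : ℝ) : ℂ)) (y : ℂ) 0 :=
      h3.ofReal_comp
    refine ((e1.add (e3.smul e2)).prodMk e2).congr_deriv ?_
    rw [DU_act, jU_apply, curve_one h1]
    refine Prod.ext ?_ rfl
    change JE κ (hact κ X v.1) + (((0 : ℝ) : ℂ) • JE κ (hact κ X v.2) +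
      (y : ℂ) • Rr κ κ 1 (JE κ v.2)) = JE κ (hact κ X v.1 + (y : ℂ) • v.2)
    rw [map_one, map_add, map_smul, Complex.ofReal_zero, zero_smul, zero_add]
    rfl

/-! ### The `K`-finite vectors -/

theorem rot_mem (θ : ℝ) : ((rotS θ, 1) : GG) ∈ KK := ⟨orth_rotS θ, rfl⟩

theorem eq_sum (u : VP) : u = ∑ n ∈ u.support, u n • (Finsupp.single n 1 : VP) := by
  conv_lhs => rw [← Finsupp.sum_single u]
  rw [Finsupp.sum]
  refine Finset.sum_congr rfl fun n _ => ?_
  rw [Finsupp.smul_single, smul_eq_mul, mul_one]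

theorem kfiniteV {κ b : ℕ} (hb : b ≤ 2 * κ) (x : EB b) :
    IsKFinite (prV κ b) x ↔ x ∈ Set.range (JE b) := by
  constructor
  · rintro ⟨W, hWf, hx, hW⟩
    obtain ⟨v, hv⟩ := fin_range hb (W := W.map (EB b).subtype) (x := (x : C(Ds, ℂ))) (by
      rintro _ ⟨y, hy, rfl⟩
      exact ⟨Rr κ b (rotS 1) y, hW _ (rot_mem 1) y hy, rfl⟩) ⟨x, hx, rfl⟩ x.2
    exact ⟨v, Subtype.ext hv⟩
  · rintro ⟨u, rfl⟩
    classical
    refine ⟨Submodule.span ℂ ((fun n => JE b (Finsupp.single n 1)) '' (u.support : Set ℕ)),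
      FiniteDimensional.span_of_finite ℂ (u.support.finite_toSet.image _), ?_, ?_⟩
    · have hu : JE b u = ∑ n ∈ u.support, u n • JE b (Finsupp.single n 1) := by
        conv_lhs => rw [eq_sum u]
        rw [map_sum]
        simp only [map_smul]
      rw [hu]
      exact Submodule.sum_mem _ fun n hn =>
        Submodule.smul_mem _ _ (Submodule.subset_span ⟨n, hn, rfl⟩)
    · intro k hk y hy
      have hbe := be_of_orth hk.1
      induction hy using Submodule.span_induction with
      | mem y hy =>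
        obtain ⟨n, hn, rfl⟩ := hy
        rw [prV_apply]
        simp only [JE_rot hbe]
        exact Submodule.smul_mem _ _ (Submodule.subset_span ⟨n, hn, rfl⟩)
      | zero => rw [map_zero]; exact Submodule.zero_mem _
      | add y z _ _ hy hz => rw [map_add]; exact Submodule.add_mem _ hy hz
      | smul c y _ hy => rw [map_smul]; exact Submodule.smul_mem _ _ hy

theorem kfiniteU (κ : ℕ) (x : EE κ) : IsKFinite (prU κ) x ↔ x ∈ Set.range (jU κ) := by
  constructor
  · rintro ⟨W, hWf, hx, hW⟩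
    have key : ∀ (L : EE κ →ₗ[ℂ] EB κ), (∀ y, L (prU κ (rotS 1, 1) y) = Rr κ κ (rotS 1) (L y)) →
        ∃ v, JJ κ v = (L x : C(Ds, ℂ)) := by
      intro L hL
      refine fin_range (κ := κ) (b := κ) (by omega) (W := W.map ((EB κ).subtype ∘ₗ L)) ?_
        ⟨x, hx, rfl⟩ (L x).2
      rintro _ ⟨y, hy, rfl⟩
      refine ⟨prU κ (rotS 1, 1) y, hW _ (rot_mem 1) y hy, ?_⟩
      exact congrArg Subtype.val (hL y)
    obtain ⟨u, hu⟩ := key (LinearMap.fst ℂ (EB κ) (EB κ)) (fun y => by
      change Rr κ κ (rotS 1) y.1 + ((0 : ℝ) : ℂ) • Rr κ κ (rotS 1) y.2 = Rr κ κ (rotS 1) y.1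
      rw [Complex.ofReal_zero, zero_smul, add_zero])
    obtain ⟨v, hv⟩ := key (LinearMap.snd ℂ (EB κ) (EB κ)) (fun y => rfl)
    exact ⟨(u, v), Prod.ext (Subtype.ext hu) (Subtype.ext hv)⟩
  · rintro ⟨u, rfl⟩
    classical
    set S : Finset ℕ := u.1.support ∪ u.2.support with hS
    set A : Set (EE κ) := ((fun n => ((JE κ (Finsupp.single n 1), 0) : EE κ)) '' (S : Set ℕ)) ∪
      ((fun n => ((0, JE κ (Finsupp.single n 1)) : EE κ)) '' (S : Set ℕ)) with hA
    refine ⟨Submodule.span ℂ A, ?_, ?_, ?_⟩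
    · exact FiniteDimensional.span_of_finite ℂ
        ((S.finite_toSet.image _).union (S.finite_toSet.image _))
    · have h1 : ∀ w : VP, w.support ⊆ S → ∀ (L : EB κ →ₗ[ℂ] EE κ),
          (∀ n ∈ S, L (JE κ (Finsupp.single n 1)) ∈ Submodule.span ℂ A) →
          L (JE κ w) ∈ Submodule.span ℂ A := by
        intro w hw L hN
        rw [← Finsupp.sum_single w, Finsupp.sum, map_sum, map_sum]
        refine Submodule.sum_mem _ fun n hn => ?_
        have e : (Finsupp.single n (w n) : VP) = w n • Finsupp.single n 1 := by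
          rw [Finsupp.smul_single, smul_eq_mul, mul_one]
        rw [e, map_smul, map_smul]
        exact Submodule.smul_mem _ _ (hN n (hw hn))
      have h2 : jU κ u = LinearMap.inl ℂ (EB κ) (EB κ) (JE κ u.1) +
          LinearMap.inr ℂ (EB κ) (EB κ) (JE κ u.2) := by
        rw [jU_apply, LinearMap.inl_apply, LinearMap.inr_apply, Prod.mk_add_mk, add_zero, zero_add]
      rw [h2]
      refine Submodule.add_mem _ (h1 u.1 Finset.subset_union_left _ fun n hn => ?_)
        (h1 u.2 Finset.subset_union_right _ fun n hn => ?_)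
      · exact Submodule.subset_span (Or.inl ⟨n, hn, rfl⟩)
      · exact Submodule.subset_span (Or.inr ⟨n, hn, rfl⟩)
    · intro k hk y hy
      have hbe := be_of_orth hk.1
      have hk2 : ((Multiplicative.toAdd k.2 : ℝ) : ℂ) = 0 := by
        rw [hk.2]
        simp
      induction hy using Submodule.span_induction with
      | mem y hy =>
        rcases hy with ⟨n, hn, rfl⟩ | ⟨n, hn, rfl⟩
        · have h1 : prU κ k ((JE κ (Finsupp.single n 1), 0) : EE κ) =
              ((al k.1)⁻¹ ^ (2 * (n + κ))) • ((JE κ (Finsupp.single n 1), 0) : EE κ) := by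
            rw [prU_apply, hk2]
            simp only [map_zero, smul_zero, add_zero, JE_rot hbe, Prod.smul_mk]
          rw [h1]
          exact Submodule.smul_mem _ _ (Submodule.subset_span (Or.inl ⟨n, hn, rfl⟩))
        · have h1 : prU κ k ((0, JE κ (Finsupp.single n 1)) : EE κ) =
              ((al k.1)⁻¹ ^ (2 * (n + κ))) • ((0, JE κ (Finsupp.single n 1)) : EE κ) := by
            rw [prU_apply, hk2]
            simp only [map_zero, zero_smul, add_zero, JE_rot hbe, Prod.smul_mk, smul_zero]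
          rw [h1]
          exact Submodule.smul_mem _ _ (Submodule.subset_span (Or.inr ⟨n, hn, rfl⟩))
      | zero => rw [map_zero]; exact Submodule.zero_mem _
      | add y z _ _ hy hz => rw [map_add]; exact Submodule.add_mem _ hy hz
      | smul c y _ hy => rw [map_smul]; exact Submodule.smul_mem _ _ hy

theorem inNormV {κ b : ℕ} (hb : b ≤ 2 * κ) : InNorm (DV κ) (wk κ) (pV b) :=
  ⟨EB b, inferInstance, inferInstance, inferInstance, prV κ b, JE b, globV κ b, kfiniteV hb, 1,
    one_pos, fun g v => by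
      rw [one_mul]
      exact norm_prV_le hb g (JE b v)⟩

theorem inNormU (κ : ℕ) : InNorm (DU κ) (wk κ) (pU κ) :=
  ⟨EE κ, inferInstance, inferInstance, inferInstance, prU κ, jU κ, globU κ, kfiniteU κ, 1,
    one_pos, fun g v => by
      rw [one_mul]
      exact norm_prU_le κ g (jU κ v)⟩

end Q4.Sub
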