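import Pool.Agent.Q4.Sub.Glob

/-!
# The lower bound for the gap of the submodule
-/

open Filter Topology ComplexConjugate
open scoped NNReal ENNReal

namespace Q4.Sub

open Q4.HC Q4.Lip

theorem pV_smul (b : ℕ) (c : ℂ) (u : VP) : pV b (c • u) = ‖c‖ * pV b u := by
  rw [pV, map_smul, norm_smul]
  rfl

theorem pV_single (b n : ℕ) : pV b (Finsupp.single n 1) = ‖mo b n‖ := by
  change ‖JJ b (Finsupp.single n 1)‖ = _
  rw [JJ_single, one_smul]

theorem low {c : ℝ} (hc : 0 < c) (κ : ℕ) :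
    ((2 * κ : ℕ) : ℝ≥0∞) ≤ dArrow (DV κ) c (pV 0) (pV (2 * κ)) := by
  refine le_iInf₂ fun s hs => ?_
  obtain ⟨T, hT, C, hC, hle⟩ := hs
  set b : ℕ := 2 * κ with hb
  suffices h : (b : ℝ) ≤ s by
    have h2 : (b : ℝ≥0) ≤ s := by exact_mod_cast h
    exact_mod_cast h2
  by_contra hlt
  push Not at hlt
  have hs0 : (0 : ℝ) ≤ s := s.2
  set K : ℝ := 1 + c * (4 * ((κ : ℝ) + 1) ^ 2) with hK
  have hKpos : 0 < K := by positivity
  set C' : ℝ := C * K ^ ((s : ℝ) / 2) * (2 * (b : ℝ)) ^ b with hC'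
  have key : ∀ n : ℕ, ((n : ℝ) + 1) ^ ((b : ℝ) - s) ≤ C' := by
    intro n
    set N : ℝ := (n : ℝ) + 1 with hN
    have hN1 : 1 ≤ N := by rw [hN]; linarith [Nat.cast_nonneg (α := ℝ) n]
    have hN0 : 0 < N := by linarith
    have h0 := hT _ _ (DV_weight_single κ n 1)
    have h1 : pV 0 (Finsupp.single n 1) ≤ C * pV b (T (Finsupp.single n 1)) := hle _
    have hpos : 0 ≤ 1 + c * ((-2 * ((n : ℤ) + κ) : ℤ) : ℝ) ^ 2 := by positivity
    rw [h0, pV_smul, pV_single, pV_single, Complex.norm_real,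
      Real.norm_of_nonneg (by positivity)] at h1
    have h2 := one_le_norm_mo n
    have h3 := norm_mo_le b n
    have h4 : (1 + c * ((-2 * ((n : ℤ) + κ) : ℤ) : ℝ) ^ 2) ^ ((s : ℝ) / 2) ≤
        K ^ ((s : ℝ) / 2) * N ^ (s : ℝ) := by
      have e1 : 1 + c * ((-2 * ((n : ℤ) + κ) : ℤ) : ℝ) ^ 2 ≤ K * N ^ 2 := by
        have e2 : ((-2 * ((n : ℤ) + κ) : ℤ) : ℝ) ^ 2 = 4 * ((n : ℝ) + κ) ^ 2 := by
          push_cast
          ring
        have e3 : (n : ℝ) + κ ≤ ((κ : ℝ) + 1) * N := by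
          rw [hN]
          have a1 : (0 : ℝ) ≤ n := Nat.cast_nonneg n
          have a2 : (0 : ℝ) ≤ κ := Nat.cast_nonneg κ
          nlinarith [mul_nonneg a1 a2]
        have e4 : ((n : ℝ) + κ) ^ 2 ≤ (((κ : ℝ) + 1) * N) ^ 2 := by
          gcongr
        have e5 : (1 : ℝ) ≤ N ^ 2 := one_le_pow₀ hN1
        rw [e2, hK]
        have e6 : c * (4 * ((n : ℝ) + κ) ^ 2) ≤ c * (4 * (((κ : ℝ) + 1) * N) ^ 2) := by gcongr
        nlinarith
      have e3 : (K * N ^ 2) ^ ((s : ℝ) / 2) = K ^ ((s : ℝ) / 2) * N ^ (s : ℝ) := by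
        rw [Real.mul_rpow hKpos.le (by positivity), ← Real.rpow_natCast N 2,
          ← Real.rpow_mul hN0.le]
        congr 2
        push_cast
        ring
      rw [← e3]
      exact Real.rpow_le_rpow hpos e1 (by positivity)
    have h5 : 1 ≤ C * ((K ^ ((s : ℝ) / 2) * N ^ (s : ℝ)) * (2 * (b : ℝ) / N) ^ b) := by
      refine h2.trans (h1.trans ?_)
      gcongr
    have h7 : C * ((K ^ ((s : ℝ) / 2) * N ^ (s : ℝ)) * (2 * (b : ℝ) / N) ^ b) =
        C' * N ^ (s : ℝ) / N ^ b := by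
      rw [hC', div_pow]
      field_simp
    rw [h7, le_div_iff₀ (by positivity), one_mul] at h5
    rw [Real.rpow_sub hN0, Real.rpow_natCast, div_le_iff₀ (by positivity)]
    exact h5
  have hlim : Tendsto (fun n : ℕ => ((n : ℝ) + 1) ^ ((b : ℝ) - s)) atTop atTop :=
    (tendsto_rpow_atTop (by linarith)).comp
      (tendsto_atTop_add_const_right _ _ tendsto_natCast_atTop_atTop)
  obtain ⟨n, hn⟩ := (hlim.eventually_gt_atTop C').exists
  exact absurd (key n) (not_le.2 hn)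

/-- The lower bound for the gap. -/
theorem gap_low {c : ℝ} (hc : 0 < c) (κ : ℕ) : ((2 * κ : ℕ) : ℝ≥0∞) ≤ gap (DV κ) c (wk κ) := by
  refine (low hc κ).trans ?_
  exact le_iSup₂_of_le (pV 0) (inNormV (Nat.zero_le _)) (le_iSup₂_of_le (pV (2 * κ))
    (inNormV le_rfl) le_rfl)

end Q4.Sub
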