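import Pool.Agent.Q4.Sub.Defs

/-!
# The modules: a holomorphic discrete series representation and its self-extension
-/

open Filter Topology ComplexConjugate

namespace Q4.Sub

/-- The underlying space of the lowest weight module. -/
abbrev VP : Type := ℕ →₀ ℂ

/-- The raising operator `z^n ↦ (n + 2κ) z^(n + 1)`. -/
noncomputable def Sp (κ : ℕ) : Module.End ℂ VP :=
  Finsupp.linearCombination ℂ fun n => (Finsupp.single (n + 1) ((n : ℂ) + 2 * κ) : VP)

/-- The lowering operator `z^n ↦ n z^(n - 1)`. -/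
noncomputable def Sm : Module.End ℂ VP :=
  Finsupp.linearCombination ℂ fun n => (Finsupp.single (n - 1) (n : ℂ) : VP)

/-- The diagonal operator `z^n ↦ (n + κ) z^n`. -/
noncomputable def Mm (κ : ℕ) : Module.End ℂ VP :=
  Finsupp.linearCombination ℂ fun n => (Finsupp.single n ((n : ℂ) + κ) : VP)

theorem Sp_single (κ n : ℕ) (c : ℂ) :
    Sp κ (Finsupp.single n c) = Finsupp.single (n + 1) (c * ((n : ℂ) + 2 * κ)) := by
  rw [Sp, Finsupp.linearCombination_single, Finsupp.smul_single, smul_eq_mul]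

theorem Sm_single (n : ℕ) (c : ℂ) :
    Sm (Finsupp.single n c) = Finsupp.single (n - 1) (c * (n : ℂ)) := by
  rw [Sm, Finsupp.linearCombination_single, Finsupp.smul_single, smul_eq_mul]

theorem Mm_single (κ n : ℕ) (c : ℂ) :
    Mm κ (Finsupp.single n c) = Finsupp.single n (c * ((n : ℂ) + κ)) := by
  rw [Mm, Finsupp.linearCombination_single, Finsupp.smul_single, smul_eq_mul]

theorem b1 (κ : ℕ) (v : VP) : Sp κ (Sm v) = Sm (Sp κ v) - (2 : ℂ) • Mm κ v := by
  have h : Sp κ ∘ₗ Sm = Sm ∘ₗ Sp κ - (2 : ℂ) • Mm κ := by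
    refine Finsupp.lhom_ext fun n c => ?_
    change Sp κ (Sm (Finsupp.single n c)) = Sm (Sp κ (Finsupp.single n c)) -
      (2 : ℂ) • Mm κ (Finsupp.single n c)
    rw [Sm_single, Sp_single, Sp_single, Sm_single, Mm_single, Finsupp.smul_single, smul_eq_mul,
      Nat.add_sub_cancel, ← Finsupp.single_sub]
    rcases n with _ | n
    · have e1 : c * ((0 : ℕ) : ℂ) * (((0 - 1 : ℕ) : ℂ) + 2 * κ) = 0 := by simp
      have e2 : c * (((0 : ℕ) : ℂ) + 2 * κ) * ((0 + 1 : ℕ) : ℂ) -
          2 * (c * (((0 : ℕ) : ℂ) + κ)) = 0 := by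
        push_cast
        ring
      rw [e1, e2, Finsupp.single_zero, Finsupp.single_zero]
    · rw [Nat.add_sub_cancel]
      congr 1
      push_cast
      ring
  exact LinearMap.congr_fun h v

theorem b2 (κ : ℕ) (v : VP) : Mm κ (Sp κ v) = Sp κ (Mm κ v) + Sp κ v := by
  have h : Mm κ ∘ₗ Sp κ = Sp κ ∘ₗ Mm κ + Sp κ := by
    refine Finsupp.lhom_ext fun n c => ?_
    change Mm κ (Sp κ (Finsupp.single n c)) = Sp κ (Mm κ (Finsupp.single n c)) +
      Sp κ (Finsupp.single n c)
    rw [Mm_single, Sp_single, Sp_single, Mm_single, ← Finsupp.single_add]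
    congr 1
    push_cast
    ring
  exact LinearMap.congr_fun h v

theorem b3 (κ : ℕ) (v : VP) : Mm κ (Sm v) = Sm (Mm κ v) - Sm v := by
  have h : Mm κ ∘ₗ Sm = Sm ∘ₗ Mm κ - Sm := by
    refine Finsupp.lhom_ext fun n c => ?_
    change Mm κ (Sm (Finsupp.single n c)) = Sm (Mm κ (Finsupp.single n c)) -
      Sm (Finsupp.single n c)
    rw [Mm_single, Sm_single, Sm_single, Mm_single, ← Finsupp.single_sub]
    rcases n with _ | n
    · simp
    · rw [Nat.add_sub_cancel]
      congr 1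
      push_cast
      ring
  exact LinearMap.congr_fun h v

/-- The operator `h`. -/
noncomputable def oh (κ : ℕ) : Module.End ℂ VP := Sp κ - Sm

/-- The operator `e`. -/
noncomputable def oe (κ : ℕ) : Module.End ℂ VP :=
  Complex.I • (Mm κ - (1 / 2 : ℂ) • Sm - (1 / 2 : ℂ) • Sp κ)

/-- The operator `f`. -/
noncomputable def of (κ : ℕ) : Module.End ℂ VP :=
  Complex.I • (-Mm κ - (1 / 2 : ℂ) • Sm - (1 / 2 : ℂ) • Sp κ)

theorem oh_apply (κ : ℕ) (v : VP) : oh κ v = Sp κ v - Sm v := rfl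

theorem oe_apply (κ : ℕ) (v : VP) : oe κ v =
    Complex.I • (Mm κ v - (1 / 2 : ℂ) • Sm v - (1 / 2 : ℂ) • Sp κ v) := rfl

theorem of_apply (κ : ℕ) (v : VP) : of κ v =
    Complex.I • (-Mm κ v - (1 / 2 : ℂ) • Sm v - (1 / 2 : ℂ) • Sp κ v) := rfl

theorem lie_he (κ : ℕ) (v : VP) : oh κ (oe κ v) - oe κ (oh κ v) = (2 : ℂ) • oe κ v := by
  simp only [oh_apply, oe_apply, map_sub, map_smul, b1, b2, b3]
  module

theorem lie_hf (κ : ℕ) (v : VP) : oh κ (of κ v) - of κ (oh κ v) = (-2 : ℂ) • of κ v := by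
  simp only [oh_apply, of_apply, map_sub, map_smul, map_neg, b1, b2, b3]
  module

theorem lie_ef (κ : ℕ) (v : VP) : oe κ (of κ v) - of κ (oe κ v) = oh κ v := by
  have h1 : oe κ (of κ v) - of κ (oe κ v) = (Complex.I * Complex.I) • (-oh κ v) := by
    simp only [oh_apply, oe_apply, of_apply, map_sub, map_smul, map_neg, b1, b2, b3]
    module
  rw [h1, Complex.I_mul_I, neg_one_smul, neg_neg]

/-- The holomorphic discrete series module of weight `2κ`, with the trivial action of the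
second factor. -/
noncomputable def DV (κ : ℕ) : Ops VP where
  h := oh κ
  e := oe κ
  f := of κ
  z := fun _ => 0

/-- The space of the extension. -/
abbrev VW : Type := VP × VP

/-- The self-extension of the module `DV κ`: the second factor acts by a Jordan block. -/
noncomputable def DU (κ : ℕ) : Ops VW where
  h := fun u => (oh κ u.1, oh κ u.2)
  e := fun u => (oe κ u.1, oe κ u.2)
  f := fun u => (of κ u.1, of κ u.2)
  z := fun u => (u.2, 0)

theorem DV_lie (κ : ℕ) : (DV κ).IsLieAction where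
  lin_h := (oh κ).isLinear
  lin_e := (oe κ).isLinear
  lin_f := (of κ).isLinear
  lin_z := (0 : VP →ₗ[ℂ] VP).isLinear
  he := lie_he κ
  hf := lie_hf κ
  ef := lie_ef κ
  hz _ := map_zero (oh κ)
  ez _ := map_zero (oe κ)
  fz _ := map_zero (of κ)

theorem DU_lie (κ : ℕ) : (DU κ).IsLieAction where
  lin_h := (LinearMap.prodMap (oh κ) (oh κ)).isLinear
  lin_e := (LinearMap.prodMap (oe κ) (oe κ)).isLinear
  lin_f := (LinearMap.prodMap (of κ) (of κ)).isLinear
  lin_z := (LinearMap.prod (LinearMap.snd ℂ VP VP) 0 : VW →ₗ[ℂ] VW).isLinear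
  he _ := Prod.ext (lie_he κ _) (lie_he κ _)
  hf _ := Prod.ext (lie_hf κ _) (lie_hf κ _)
  ef _ := Prod.ext (lie_ef κ _) (lie_ef κ _)
  hz _ := Prod.ext rfl (map_zero (oh κ))
  ez _ := Prod.ext rfl (map_zero (oe κ))
  fz _ := Prod.ext rfl (map_zero (of κ))

theorem of_sub_oe (κ : ℕ) (v : VP) : of κ v - oe κ v = (-2 * Complex.I) • Mm κ v := by
  rw [of_apply, oe_apply]
  module

theorem Mm_apply (κ : ℕ) (v : VP) (n : ℕ) : Mm κ v n = ((n : ℂ) + κ) * v n := by
  have h : Finsupp.lapply n ∘ₗ Mm κ = ((n : ℂ) + κ) • (Finsupp.lapply n : VP →ₗ[ℂ] ℂ) := by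
    refine Finsupp.lhom_ext fun m c => ?_
    change Mm κ (Finsupp.single m c) n = ((n : ℂ) + κ) • (Finsupp.single m c : VP) n
    rw [Mm_single, Finsupp.single_apply, Finsupp.single_apply]
    split_ifs with hnm
    · rw [hnm, smul_eq_mul, mul_comm]
    · rw [smul_zero]
  exact LinearMap.congr_fun h v

theorem weight_zero (κ : ℕ) (k : ℤ) (v : VP) :
    of κ v - oe κ v = ((k : ℂ) * Complex.I) • v ↔ ∀ n, v n ≠ 0 → k = -2 * ((n : ℤ) + κ) := by
  rw [of_sub_oe]
  constructor
  · intro h n hn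
    have h2 := DFunLike.congr_fun h n
    simp only [Finsupp.smul_apply, Mm_apply, smul_eq_mul] at h2
    have h3 : ((k : ℂ) + 2 * (n + κ)) * (Complex.I * v n) = 0 := by linear_combination -h2
    have h4 : (k : ℂ) + 2 * (n + κ) = 0 :=
      (mul_eq_zero.1 h3).resolve_right (mul_ne_zero Complex.I_ne_zero hn)
    have h5 : ((k + 2 * ((n : ℤ) + κ) : ℤ) : ℂ) = 0 := by
      push_cast
      exact h4
    have h6 : k + 2 * ((n : ℤ) + κ) = 0 := by exact_mod_cast h5
    linarith
  · intro h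
    ext n
    simp only [Finsupp.smul_apply, Mm_apply, smul_eq_mul]
    by_cases hn : v n = 0
    · rw [hn]
      ring
    · rw [h n hn]
      push_cast
      ring

theorem DV_weight_iff (κ : ℕ) (k : ℤ) (v : VP) : (DV κ).IsWeight k v ↔
    ∀ n, v n ≠ 0 → k = -2 * ((n : ℤ) + κ) := weight_zero κ k v

theorem DU_weight_iff (κ : ℕ) (k : ℤ) (u : VW) : (DU κ).IsWeight k u ↔
    (∀ n, u.1 n ≠ 0 → k = -2 * ((n : ℤ) + κ)) ∧ (∀ n, u.2 n ≠ 0 → k = -2 * ((n : ℤ) + κ)) := by
  rw [← weight_zero, ← weight_zero]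
  exact Prod.ext_iff

theorem single_weight (κ n : ℕ) (c : ℂ) (m : ℕ) (hm : (Finsupp.single n c : VP) m ≠ 0) :
    -2 * ((n : ℤ) + κ) = -2 * ((m : ℤ) + κ) := by
  have : n = m := by
    by_contra hne
    exact hm (Finsupp.single_eq_of_ne (Ne.symm hne))
  rw [this]

theorem DV_weight_single (κ n : ℕ) (c : ℂ) :
    (DV κ).IsWeight (-2 * ((n : ℤ) + κ)) (Finsupp.single n c) := by
  rw [DV_weight_iff]
  exact single_weight κ n c

theorem DU_weight_single (κ n : ℕ) (c d : ℂ) :
    (DU κ).IsWeight (-2 * ((n : ℤ) + κ)) (Finsupp.single n c, Finsupp.single n d) := by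
  rw [DU_weight_iff]
  exact ⟨single_weight κ n c, single_weight κ n d⟩

theorem span_single (W : Submodule ℂ VP) (h : ∀ n, (Finsupp.single n 1 : VP) ∈ W) : W = ⊤ := by
  rw [eq_top_iff]
  rintro v -
  induction v using Finsupp.induction_linear with
  | zero => exact Submodule.zero_mem _
  | add f g hf hg => exact Submodule.add_mem _ hf hg
  | single n c =>
    have := Submodule.smul_mem _ c (h n)
    rwa [Finsupp.smul_single, smul_eq_mul, mul_one] at this

theorem span_single₂ (W : Submodule ℂ VW) (h : ∀ n, ((Finsupp.single n 1, 0) : VW) ∈ W)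
    (h' : ∀ n, ((0, Finsupp.single n 1) : VW) ∈ W) : W = ⊤ := by
  have h1 := span_single (W.comap (LinearMap.inl ℂ VP VP)) h
  have h2 := span_single (W.comap (LinearMap.inr ℂ VP VP)) h'
  rw [eq_top_iff]
  rintro ⟨u, v⟩ -
  have h3 : ((u, 0) : VW) ∈ W := by
    have : u ∈ W.comap (LinearMap.inl ℂ VP VP) := by rw [h1]; trivial
    exact this
  have h4 : ((0, v) : VW) ∈ W := by
    have : v ∈ W.comap (LinearMap.inr ℂ VP VP) := by rw [h2]; trivial
    exact this
  have := Submodule.add_mem _ h3 h4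
  simpa using this

theorem DV_span (κ : ℕ) : Submodule.span ℂ {v : VP | ∃ k, (DV κ).IsWeight k v} = ⊤ :=
  span_single _ fun n => Submodule.subset_span ⟨_, DV_weight_single κ n 1⟩

theorem DU_span (κ : ℕ) : Submodule.span ℂ {v : VW | ∃ k, (DU κ).IsWeight k v} = ⊤ := by
  refine span_single₂ _ (fun n => Submodule.subset_span ⟨-2 * ((n : ℤ) + κ), ?_⟩)
    (fun n => Submodule.subset_span ⟨-2 * ((n : ℤ) + κ), ?_⟩)
  · have := DU_weight_single κ n 1 0
    rwa [Finsupp.single_zero] at this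
  · have := DU_weight_single κ n 0 1
    rwa [Finsupp.single_zero] at this

theorem eq_smul_single {κ : ℕ} {k : ℤ} {n : ℕ} (hn : k = -2 * ((n : ℤ) + κ)) {x : VP}
    (hx : ∀ m, x m ≠ 0 → k = -2 * ((m : ℤ) + κ)) : x = x n • Finsupp.single n 1 := by
  ext m
  rw [Finsupp.smul_apply, smul_eq_mul]
  by_cases hm : m = n
  · rw [hm, Finsupp.single_eq_same, mul_one]
  · rw [Finsupp.single_eq_of_ne hm, mul_zero]
    by_contra hne
    have := hx m hne
    rw [hn] at this
    apply hm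
    omega

theorem DV_admissible (κ : ℕ) (k : ℤ) :
    FiniteDimensional ℂ (Submodule.span ℂ {v : VP | (DV κ).IsWeight k v}) := by
  classical
  by_cases hex : ∃ n : ℕ, k = -2 * ((n : ℤ) + κ)
  · obtain ⟨n, hn⟩ := hex
    have hle : Submodule.span ℂ {v : VP | (DV κ).IsWeight k v} ≤
        Submodule.span ℂ {(Finsupp.single n 1 : VP)} := by
      rw [Submodule.span_le]
      intro u hu
      rw [eq_smul_single hn ((DV_weight_iff κ k u).1 hu)]
      exact Submodule.smul_mem _ _ (Submodule.subset_span rfl)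
    have : FiniteDimensional ℂ (Submodule.span ℂ {(Finsupp.single n 1 : VP)}) :=
      FiniteDimensional.span_of_finite ℂ (by simp)
    exact Submodule.finiteDimensional_of_le hle
  · have h0 : Submodule.span ℂ {v : VP | (DV κ).IsWeight k v} = ⊥ := by
      rw [Submodule.span_eq_bot]
      intro u hu
      push Not at hex
      ext m
      by_contra hne
      exact hex m ((DV_weight_iff κ k u).1 hu m hne)
    rw [h0]
    infer_instance

theorem DU_admissible (κ : ℕ) (k : ℤ) :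
    FiniteDimensional ℂ (Submodule.span ℂ {v : VW | (DU κ).IsWeight k v}) := by
  classical
  by_cases hex : ∃ n : ℕ, k = -2 * ((n : ℤ) + κ)
  · obtain ⟨n, hn⟩ := hex
    have hle : Submodule.span ℂ {v : VW | (DU κ).IsWeight k v} ≤
        Submodule.span ℂ {((Finsupp.single n 1, 0) : VW), (0, Finsupp.single n 1)} := by
      rw [Submodule.span_le]
      intro u hu
      obtain ⟨h1, h2⟩ := (DU_weight_iff κ k u).1 hu
      have h4 : u = u.1 n • ((Finsupp.single n 1, 0) : VW) +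
          u.2 n • ((0, Finsupp.single n 1) : VW) := by
        refine Prod.ext ?_ ?_
        · change u.1 = u.1 n • Finsupp.single n 1 + u.2 n • 0
          rw [smul_zero, add_zero]
          exact eq_smul_single hn h1
        · change u.2 = u.1 n • 0 + u.2 n • Finsupp.single n 1
          rw [smul_zero, zero_add]
          exact eq_smul_single hn h2
      rw [h4]
      exact Submodule.add_mem _ (Submodule.smul_mem _ _ (Submodule.subset_span (by simp)))
        (Submodule.smul_mem _ _ (Submodule.subset_span (by simp)))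
    have : FiniteDimensional ℂ
        (Submodule.span ℂ {((Finsupp.single n 1, 0) : VW), (0, Finsupp.single n 1)}) :=
      FiniteDimensional.span_of_finite ℂ (by simp)
    exact Submodule.finiteDimensional_of_le hle
  · have h0 : Submodule.span ℂ {v : VW | (DU κ).IsWeight k v} = ⊥ := by
      rw [Submodule.span_eq_bot]
      intro u hu
      obtain ⟨h1, h2⟩ := (DU_weight_iff κ k u).1 hu
      push Not at hex
      refine Prod.ext ?_ ?_
      · ext m
        by_contra hne
        exact hex m (h1 m hne)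
      · ext m
        by_contra hne
        exact hex m (h2 m hne)
    rw [h0]
    infer_instance

theorem Sp_eq (κ : ℕ) (x : VP) :
    Sp κ x = (1 / 2 : ℂ) • (oh κ x + Complex.I • (oe κ x + of κ x)) := by
  have : Complex.I • (oe κ x + of κ x) = (Complex.I * Complex.I) • (-Sm x - Sp κ x) := by
    rw [oe_apply, of_apply]
    module
  rw [this, Complex.I_mul_I, oh_apply]
  module

theorem DV_fin_gen {κ : ℕ} (hκ : 0 < κ) : ∃ S : Finset VP, ∀ W : Submodule ℂ VP,
    (∀ v ∈ S, v ∈ W) → (∀ v ∈ W, (DV κ).h v ∈ W ∧ (DV κ).e v ∈ W ∧ (DV κ).f v ∈ W ∧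
      (DV κ).z v ∈ W) → W = ⊤ := by
  classical
  refine ⟨{(Finsupp.single 0 1 : VP)}, fun W hS hW => span_single W fun n => ?_⟩
  have hSp : ∀ u ∈ W, Sp κ u ∈ W := by
    intro u hu
    obtain ⟨h1, h2, h3, -⟩ := hW u hu
    rw [Sp_eq]
    exact Submodule.smul_mem _ _ (Submodule.add_mem _ h1
      (Submodule.smul_mem _ Complex.I (Submodule.add_mem _ h2 h3)))
  induction n with
  | zero => exact hS _ (by simp)
  | succ n ih =>
    have h2 := Submodule.smul_mem _ ((n : ℂ) + 2 * κ)⁻¹ (hSp _ ih)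
    have hne : (n : ℂ) + 2 * κ ≠ 0 := by exact_mod_cast (by omega : n + 2 * κ ≠ 0)
    rwa [Sp_single, Finsupp.smul_single, smul_eq_mul, one_mul, inv_mul_cancel₀ hne] at h2

theorem DU_fin_gen {κ : ℕ} (hκ : 0 < κ) : ∃ S : Finset VW, ∀ W : Submodule ℂ VW,
    (∀ v ∈ S, v ∈ W) → (∀ v ∈ W, (DU κ).h v ∈ W ∧ (DU κ).e v ∈ W ∧ (DU κ).f v ∈ W ∧
      (DU κ).z v ∈ W) → W = ⊤ := by
  classical
  refine ⟨{((0, Finsupp.single 0 1) : VW)}, fun W hS hW => ?_⟩
  have hSp : ∀ u ∈ W, ((Sp κ u.1, Sp κ u.2) : VW) ∈ W := by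
    intro u hu
    obtain ⟨h1, h2, h3, -⟩ := hW u hu
    have h4 := Submodule.smul_mem _ (1 / 2 : ℂ) (Submodule.add_mem _ h1
      (Submodule.smul_mem _ Complex.I (Submodule.add_mem _ h2 h3)))
    convert! h4 using 1
    exact Prod.ext (Sp_eq κ _) (Sp_eq κ _)
  have h1 : ∀ n : ℕ, ((0, Finsupp.single n 1) : VW) ∈ W := by
    intro n
    induction n with
    | zero => exact hS _ (by simp)
    | succ n ih =>
      have h2 := Submodule.smul_mem _ ((n : ℂ) + 2 * κ)⁻¹ (hSp _ ih)
      convert! h2 using 1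
      have hne : (n : ℂ) + 2 * κ ≠ 0 := by exact_mod_cast (by omega : n + 2 * κ ≠ 0)
      refine Prod.ext ?_ ?_
      · change (0 : VP) = ((n : ℂ) + 2 * κ)⁻¹ • Sp κ 0
        rw [map_zero, smul_zero]
      · change (Finsupp.single (n + 1) 1 : VP) = ((n : ℂ) + 2 * κ)⁻¹ • Sp κ (Finsupp.single n 1)
        rw [Sp_single, Finsupp.smul_single, smul_eq_mul, one_mul, inv_mul_cancel₀ hne]
  exact span_single₂ W (fun n => (hW _ (h1 n)).2.2.2) h1

theorem DV_hc {κ : ℕ} (hκ : 0 < κ) : (DV κ).IsHarishChandra where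
  toIsLieAction := DV_lie κ
  span := DV_span κ
  admissible := DV_admissible κ
  fin_gen := DV_fin_gen hκ

theorem DU_hc {κ : ℕ} (hκ : 0 < κ) : (DU κ).IsHarishChandra where
  toIsLieAction := DU_lie κ
  span := DU_span κ
  admissible := DU_admissible κ
  fin_gen := DU_fin_gen hκ

theorem submodule (κ : ℕ) : IsSubmoduleOf (DV κ) (DU κ) (LinearMap.inl ℂ VP VP) where
  inj := LinearMap.inl_injective
  h _ := Prod.ext rfl (map_zero (oh κ)).symm
  e _ := Prod.ext rfl (map_zero (oe κ)).symm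
  f _ := Prod.ext rfl (map_zero (of κ)).symm
  z _ := rfl

/-- The action of the Lie algebra of the first factor. -/
noncomputable def hact (κ : ℕ) (Y : Matrix (Fin 2) (Fin 2) ℝ) : Module.End ℂ VP :=
  ((Y 0 0 : ℝ) : ℂ) • oh κ + ((Y 0 1 : ℝ) : ℂ) • oe κ + ((Y 1 0 : ℝ) : ℂ) • of κ

theorem DV_act (κ : ℕ) (Y : Matrix (Fin 2) (Fin 2) ℝ) (y : ℝ) (u : VP) :
    (DV κ).act Y y u = hact κ Y u := by
  have h : (DV κ).act Y y u = hact κ Y u + (y : ℂ) • (0 : VP) := rfl
  rw [h, smul_zero, add_zero]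

theorem DU_act (κ : ℕ) (Y : Matrix (Fin 2) (Fin 2) ℝ) (y : ℝ) (u : VW) :
    (DU κ).act Y y u = (hact κ Y u.1 + (y : ℂ) • u.2, hact κ Y u.2) := by
  have h : (DU κ).act Y y u = (hact κ Y u.1 + (y : ℂ) • u.2, hact κ Y u.2 + (y : ℂ) • (0 : VP)) :=
    rfl
  rw [h, smul_zero, add_zero]

theorem hact_single (κ : ℕ) (Y : Matrix (Fin 2) (Fin 2) ℝ) (n : ℕ) (c : ℂ) :
    hact κ Y (Finsupp.single n c) =
      Finsupp.single (n + 1) (c * ((n : ℂ) + 2 * κ) *
        ((Y 0 0 : ℂ) - ((Y 1 0 + Y 0 1 : ℝ) : ℂ) * Complex.I / 2)) +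
      Finsupp.single (n - 1) (c * (n : ℂ) *
        (-((Y 0 0 : ℂ) + ((Y 1 0 + Y 0 1 : ℝ) : ℂ) * Complex.I / 2))) +
      Finsupp.single n (c * ((n : ℂ) + κ) * (-(((Y 1 0 - Y 0 1 : ℝ) : ℂ) * Complex.I))) := by
  have h1 : hact κ Y (Finsupp.single n c) =
      ((Y 0 0 : ℂ) - ((Y 1 0 + Y 0 1 : ℝ) : ℂ) * Complex.I / 2) •
      Sp κ (Finsupp.single n c) + (-((Y 0 0 : ℂ) + ((Y 1 0 + Y 0 1 : ℝ) : ℂ) * Complex.I / 2)) •
      Sm (Finsupp.single n c) + (-(((Y 1 0 - Y 0 1 : ℝ) : ℂ) * Complex.I)) •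
      Mm κ (Finsupp.single n c) := by
    rw [hact, LinearMap.add_apply, LinearMap.add_apply, LinearMap.smul_apply, LinearMap.smul_apply,
      LinearMap.smul_apply, oh_apply, oe_apply, of_apply]
    push_cast
    module
  rw [h1, Sp_single, Sm_single, Mm_single, Finsupp.smul_single, Finsupp.smul_single,
    Finsupp.smul_single, smul_eq_mul, smul_eq_mul, smul_eq_mul]
  congr 1
  · congr 1
    · congr 1
      ring
    · congr 1
      ring
  · congr 1
    ring

end Q4.Sub
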