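import Pool.Agent.Q4.Sub.Est
import Pool.Agent.Q4.Sub.Low

/-!
# The upper bound for the gap of the extension
-/

open Filter Topology ComplexConjugate
open scoped NNReal ENNReal

namespace Q4.Sub

open Q4.HC Q4.Lip

/-- The eigenvalues of the Sobolev operator of order `κ + 3`. -/
noncomputable def sv (c : ℝ) (κ n : ℕ) : ℝ :=
  (1 + c * ((-2 * ((n : ℤ) + κ) : ℤ) : ℝ) ^ 2) ^ (((κ : ℝ) + 3) / 2)

/-- The Sobolev operator of order `κ + 3`. -/
noncomputable def sobP (c : ℝ) (κ : ℕ) : VP →ₗ[ℂ] VP :=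
  Finsupp.linearCombination ℂ fun n => (Finsupp.single n (sv c κ n : ℂ) : VP)

theorem sobP_apply (c : ℝ) (κ : ℕ) (v : VP) (n : ℕ) : sobP c κ v n = (sv c κ n : ℂ) * v n := by
  have h : Finsupp.lapply n ∘ₗ sobP c κ = (sv c κ n : ℂ) • (Finsupp.lapply n : VP →ₗ[ℂ] ℂ) := by
    refine Finsupp.lhom_ext fun m z => ?_
    change sobP c κ (Finsupp.single m z) n = (sv c κ n : ℂ) • (Finsupp.single m z : VP) n
    rw [sobP, Finsupp.linearCombination_single, Finsupp.smul_single, smul_eq_mul,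
      Finsupp.single_apply, Finsupp.single_apply]
    split_ifs with hnm
    · rw [hnm, smul_eq_mul, mul_comm]
    · rw [smul_zero]
  exact LinearMap.congr_fun h v

/-- The Sobolev operator of order `κ + 3`. -/
noncomputable def sobW (c : ℝ) (κ : ℕ) : VW →ₗ[ℂ] VW :=
  LinearMap.prodMap (sobP c κ) (sobP c κ)

theorem isSobolev_sobW (c : ℝ) (κ : ℕ) : IsSobolev (DU κ) c ((κ : ℝ) + 3) (sobW c κ) := by
  intro k v hv
  obtain ⟨h1, h2⟩ := (DU_weight_iff κ k v).1 hv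
  have key : ∀ u : VP, (∀ n, u n ≠ 0 → k = -2 * ((n : ℤ) + κ)) → sobP c κ u =
      (((1 + c * (k : ℝ) ^ 2) ^ (((κ : ℝ) + 3) / 2) : ℝ) : ℂ) • u := by
    intro u hu
    ext n
    rw [sobP_apply, Finsupp.smul_apply, smul_eq_mul]
    by_cases hn : u n = 0
    · rw [hn, mul_zero, mul_zero]
    · rw [hu n hn, sv]
  exact Prod.ext (key _ h1) (key _ h2)

/-- The constant in the lower bound of the eigenvalues. -/
noncomputable def cc (c : ℝ) (κ : ℕ) : ℝ := (4 * c) ^ (((κ : ℝ) + 3) / 2)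

theorem sv_ge {c : ℝ} (hc : 0 < c) {κ : ℕ} (hκ : 0 < κ) (n : ℕ) :
    cc c κ * ((n : ℝ) + 1) ^ (κ + 3) ≤ sv c κ n := by
  set N : ℝ := (n : ℝ) + 1 with hN
  have hN0 : 0 < N := by positivity
  have h1 : 4 * c * N ^ 2 ≤ 1 + c * ((-2 * ((n : ℤ) + κ) : ℤ) : ℝ) ^ 2 := by
    have e2 : ((-2 * ((n : ℤ) + κ) : ℤ) : ℝ) ^ 2 = 4 * ((n : ℝ) + κ) ^ 2 := by
      push_cast
      ring
    have e3 : N ≤ (n : ℝ) + κ := by
      rw [hN]
      have : (1 : ℝ) ≤ κ := by exact_mod_cast hκ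
      linarith
    have e4 : N ^ 2 ≤ ((n : ℝ) + κ) ^ 2 := by gcongr
    rw [e2]
    nlinarith
  have h2 : (4 * c * N ^ 2) ^ (((κ : ℝ) + 3) / 2) = cc c κ * N ^ (κ + 3) := by
    rw [Real.mul_rpow (by positivity) (by positivity), ← Real.rpow_natCast N 2,
      ← Real.rpow_mul hN0.le, cc, ← Real.rpow_natCast N (κ + 3)]
    congr 2
    push_cast
    ring
  rw [← h2]
  exact Real.rpow_le_rpow (by positivity) h1 (by positivity)

theorem ev_sum (v : VW) : v = ∑ n ∈ v.1.support ∪ v.2.support, ev (v.1 n) (v.2 n) n := by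
  classical
  have key : ∀ (u : VP) (S : Finset ℕ), u.support ⊆ S → u = ∑ n ∈ S, Finsupp.single n (u n) := by
    intro u S hS
    conv_lhs => rw [← Finsupp.sum_single u]
    exact Finsupp.sum_of_support_subset u hS _ (fun n _ => Finsupp.single_zero n)
  refine Prod.ext ?_ ?_
  · rw [Prod.fst_sum]
    exact key v.1 _ Finset.subset_union_left
  · rw [Prod.snd_sum]
    exact key v.2 _ Finset.subset_union_right

/-- Two norms of `Norm(U, w)` are comparable after a Sobolev shift of order `κ + 3`. -/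
theorem dominated {c : ℝ} (hc : 0 < c) {κ : ℕ} (hκ : 0 < κ) {p p' : VW → ℝ}
    (hp : InNorm (DU κ) (wk κ) p) (hp' : InNorm (DU κ) (wk κ) p') :
    Dominated p fun v => p' (sobW c κ v) := by
  obtain ⟨E, _, _, _, π, j, hE, -, C, hC, hg⟩ := hp
  obtain ⟨E', _, _, _, π', j', hE', -, C', hC', hg'⟩ := hp'
  have h := Bd.of hE hC hg
  have h' := Bd.of hE' hC' hg'
  obtain ⟨K, hK, hm⟩ := h.main hκ
  obtain ⟨K', hK', hm'⟩ := h'.main hκ
  set S : ℝ := ∑' n : ℕ, 1 / ((n : ℝ) + 1) ^ 2 with hS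
  have hS0 : 0 < S := summable_inv_sq.tsum_pos (fun n => by positivity) 0 (by norm_num)
  have hcc : 0 < cc c κ := by
    rw [cc]
    positivity
  refine ⟨2 * K * K' * C' / cc c κ * S, by positivity, fun v => ?_⟩
  set P : ℝ := p' (sobW c κ v) with hP
  have hP0 : 0 ≤ P := by rw [hP, ← hE'.norm_eq]; exact norm_nonneg _
  have hterm : ∀ n : ℕ, ‖j (ev (v.1 n) (v.2 n) n)‖ ≤
      (2 * K * K' * C' / cc c κ * P) * (1 / ((n : ℝ) + 1) ^ 2) := by
    intro n
    set a := v.1 n with ha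
    set b := v.2 n with hb
    set N : ℝ := (n : ℝ) + 1 with hN
    have hN0 : 0 < N := by positivity
    obtain ⟨u1, u2, -⟩ := hm n
    obtain ⟨-, -, l⟩ := hm' n
    obtain ⟨l1, l2⟩ := l a b
    have hsv := sv_ge hc hκ n
    have hsv0 : 0 < sv c κ n := lt_of_lt_of_le (by positivity) hsv
    -- the size of the component for the second norm
    have h1 : sv c κ n * ‖j' (ev a b n)‖ ≤ C' * P := by
      have h2 := h'.comp_le (sobW c κ v) n
      have h3 : ev ((sobW c κ v).1 n) ((sobW c κ v).2 n) n = (sv c κ n : ℂ) • ev a b n := by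
        have e1 : (sobW c κ v).1 n = (sv c κ n : ℂ) * a := sobP_apply c κ v.1 n
        have e2 : (sobW c κ v).2 n = (sv c κ n : ℂ) * b := sobP_apply c κ v.2 n
        rw [e1, e2]
        refine Prod.ext ?_ ?_
        · change (Finsupp.single n _ : VP) = (sv c κ n : ℂ) • Finsupp.single n a
          rw [Finsupp.smul_single, smul_eq_mul]
        · change (Finsupp.single n _ : VP) = (sv c κ n : ℂ) • Finsupp.single n b
          rw [Finsupp.smul_single, smul_eq_mul]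
      rw [h3, map_smul, norm_smul, Complex.norm_real, Real.norm_of_nonneg hsv0.le,
        hE'.norm_eq (sobW c κ v)] at h2
      exact h2
    have h2 : ‖j' (ev a b n)‖ ≤ C' * P / (cc c κ * N ^ (κ + 3)) := by
      rw [le_div_iff₀ (by positivity)]
      calc ‖j' (ev a b n)‖ * (cc c κ * N ^ (κ + 3)) ≤ ‖j' (ev a b n)‖ * sv c κ n := by gcongr
        _ = sv c κ n * ‖j' (ev a b n)‖ := mul_comm _ _
        _ ≤ _ := h1
    have h3 : ‖j (ev a b n)‖ ≤ ‖a‖ * ‖j (ev 1 0 n)‖ + ‖b‖ * ‖j (ev 0 1 n)‖ := by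
      rw [ev_eq a b n, map_add, map_smul, map_smul]
      refine (norm_add_le _ _).trans ?_
      rw [norm_smul, norm_smul]
    have hNk : 0 < N ^ κ := by positivity
    have h4 : ‖j (ev 1 0 n)‖ ≤ K * N / N ^ κ := by
      rw [le_div_iff₀ hNk]
      exact u1
    have h5 : ‖a‖ * ‖j (ev 1 0 n)‖ ≤ K * K' * N ^ (κ + 1) * ‖j' (ev a b n)‖ := by
      calc ‖a‖ * ‖j (ev 1 0 n)‖ ≤ (K' * N ^ (2 * κ) * ‖j' (ev a b n)‖) * (K * N / N ^ κ) := by
            gcongr
        _ = _ := by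
          rw [two_mul κ, pow_add]
          field_simp
          ring
    have h6 : ‖b‖ * ‖j (ev 0 1 n)‖ ≤ K * K' * N ^ (κ + 1) * ‖j' (ev a b n)‖ := by
      calc ‖b‖ * ‖j (ev 0 1 n)‖ ≤ (K' * N ^ κ * ‖j' (ev a b n)‖) * (K * N) := by
            gcongr
        _ = _ := by ring
    calc ‖j (ev a b n)‖ ≤ 2 * K * K' * N ^ (κ + 1) * ‖j' (ev a b n)‖ := by linarith
      _ ≤ 2 * K * K' * N ^ (κ + 1) * (C' * P / (cc c κ * N ^ (κ + 3))) := by gcongr
      _ = _ := by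
        have e : N ^ (κ + 3) = N ^ (κ + 1) * N ^ 2 := by ring
        rw [e]
        field_simp
  have hv : p v = ‖∑ n ∈ v.1.support ∪ v.2.support, j (ev (v.1 n) (v.2 n) n)‖ := by
    rw [← hE.norm_eq, ← map_sum, ← ev_sum]
  rw [hv]
  calc ‖∑ n ∈ v.1.support ∪ v.2.support, j (ev (v.1 n) (v.2 n) n)‖
      ≤ ∑ n ∈ v.1.support ∪ v.2.support, ‖j (ev (v.1 n) (v.2 n) n)‖ := norm_sum_le _ _
    _ ≤ ∑ n ∈ v.1.support ∪ v.2.support,
        (2 * K * K' * C' / cc c κ * P) * (1 / ((n : ℝ) + 1) ^ 2) :=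
      Finset.sum_le_sum fun n _ => hterm n
    _ = (2 * K * K' * C' / cc c κ * P) *
        ∑ n ∈ v.1.support ∪ v.2.support, 1 / ((n : ℝ) + 1) ^ 2 := by rw [Finset.mul_sum]
    _ ≤ (2 * K * K' * C' / cc c κ * P) * S := by
      gcongr
      exact summable_inv_sq.sum_le_tsum _ (fun n _ => by positivity)
    _ = _ := by ring

/-- The upper bound for the gap. -/
theorem gap_up {c : ℝ} (hc : 0 < c) {κ : ℕ} (hκ : 0 < κ) :
    gap (DU κ) c (wk κ) ≤ ((κ + 3 : ℕ) : ℝ≥0∞) := by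
  refine iSup₂_le fun p hp => iSup₂_le fun p' hp' => ?_
  have h1 : dArrow (DU κ) c p p' ≤ (((κ : ℝ≥0) + 3 : ℝ≥0) : ℝ≥0∞) := by
    refine iInf₂_le ((κ : ℝ≥0) + 3) ⟨sobW c κ, ?_, dominated hc hκ hp hp'⟩
    have := isSobolev_sobW c κ
    push_cast
    exact this
  refine h1.trans (le_of_eq ?_)
  push_cast
  rfl

end Q4.Sub
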